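import Pool.Agent.H500R3.Saw.Sum
import Pool.Agent.H982R3.Fin9

/-!
The quasi-polynomial bounds with exponent `5`.
-/

set_option linter.unusedSectionVars false

namespace H500S

open H982
open scoped ENNReal
open PowerSeries

variable [L : H982.Lat]

lemma Es_bound2 {N : ℕ} (hN : 2 ≤ N) {W : ℕ} (hW1 : 1 ≤ W) (hW : W ≤ 2 * N) :
    LeT N (Es W) (cst (ENNReal.ofReal (4008 * Real.log N ^ 2)) * Us (8 * W)) := by
  intro n hn
  rw [coeff_cst_mul]
  refine (coeff_Es_le2 n W).trans ?_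
  refine mul_le_mul' ?_ le_rfl
  rw [← ENNReal.ofReal_natCast]
  apply ENNReal.ofReal_le_ofReal
  have hNr : (2 : ℝ) ≤ N := by exact_mod_cast hN
  have hl2 := log_two_gt'
  have hlN : Real.log 2 ≤ Real.log N := Real.log_le_log (by norm_num) hNr
  obtain ⟨M, hM⟩ : ∃ M, M = Real.log N := ⟨_, rfl⟩
  have hM1 : 1 / 2 ≤ M := by rw [hM]; linarith
  have h2 : ((Nat.log 2 (2 * W) : ℕ) : ℝ) + 1 ≤ 10 * M := by
    have e1 : ((Nat.log 2 (2 * W) : ℕ) : ℝ) * Real.log 2 ≤ Real.log (2 * W : ℕ) := by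
      rw [← Real.log_pow]
      apply Real.log_le_log (by positivity)
      exact_mod_cast Nat.pow_log_le_self 2 (by omega : 2 * W ≠ 0)
    have e2 : Real.log ((2 * W : ℕ) : ℝ) ≤ Real.log (4 * N) := by
      apply Real.log_le_log (by exact_mod_cast (by omega : 0 < 2 * W))
      have : ((2 * W : ℕ) : ℝ) ≤ ((4 * N : ℕ) : ℝ) := by exact_mod_cast (by omega : 2 * W ≤ 4 * N)
      push_cast at this ⊢
      linarith
    have e3 : Real.log (4 * N) = 2 * Real.log 2 + M := by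
      rw [Real.log_mul (by norm_num) (by positivity), hM]
      have : Real.log 4 = 2 * Real.log 2 := by
        rw [show (4 : ℝ) = 2 ^ 2 by norm_num, Real.log_pow]; push_cast; ring
      rw [this]
    have e4 : ((Nat.log 2 (2 * W) : ℕ) : ℝ) * Real.log 2 ≤ 2 * Real.log 2 + M := by linarith
    nlinarith
  have h3 : 0 ≤ ((Nat.log 2 (2 * W) : ℕ) : ℝ) + 1 := by positivity
  have h4 : (((Nat.log 2 (2 * W) : ℕ) : ℝ) + 1) ^ 2 ≤ (10 * M) ^ 2 := pow_le_pow_left₀ h3 h2 2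
  push_cast
  calc (2 : ℝ) + 40 * (((Nat.log 2 (2 * W) : ℕ) : ℝ) + 1) ^ 2
      ≤ 2 + 40 * (10 * M) ^ 2 := by gcongr
    _ ≤ 4008 * M ^ 2 := by nlinarith
    _ = _ := by rw [hM]

theorem RB5 : ∃ K : ℝ, 0 ≤ K ∧ RB K 5 :=
  RB_of_T (C := 4008) (by norm_num) (k := 2) (by norm_num)
    (fun _ hN _ h1 h2 => Es_bound2 hN h1 h2)

theorem cr'_upper5 : ∃ K : ℝ, 0 ≤ K ∧ ∀ N : ℕ, 2 ≤ N →
    cr' N ≤ mu ^ N * Real.exp (K * Real.log N ^ 5) := by
  obtain ⟨K, hK, h⟩ := RB5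
  exact cr'_upper_log (by norm_num) hK h

theorem br'_lower5 : ∃ K : ℝ, 0 ≤ K ∧ ∀ N : ℕ, 2 ≤ N →
    mu ^ N * Real.exp (- (K * Real.log N ^ 5)) ≤ br' N := by
  obtain ⟨K, hK, h⟩ := RB5
  exact br'_lower_log (by norm_num) hK h

end H500S
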