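import Pool.Agent.H500R3.Saw.Plan
import Pool.Agent.H982R3.RClos

/-!
The T-move preserves bridges (general windows).
-/

set_option linter.unusedSectionVars false

namespace H500S

open H982F (Saw Adj Cut Up fl zf ct SawSet mem_SawSet FBr BrSet mem_BrSet)
open H982R

variable [L : H982.Lat]

theorem rf_rf_left {w : Wk} {t s : ℕ} (h : t ≤ s) : rf (rf w s) t = tm w t s := by
  rw [← rf_tm_left h, rf_rf]

theorem rf_rf_right {w : Wk} {t s : ℕ} (h : t ≤ s) : rf (rf w t) s = tm w t s := by
  rw [← rf_tm_right h, rf_rf]

theorem rf_comm (w : Wk) (s t : ℕ) : rf (rf w t) s = rf (rf w s) t := by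
  rcases le_total t s with h | h
  · rw [rf_rf_left h, rf_rf_right h]
  · rw [rf_rf_left h, rf_rf_right h]

theorem tm_br {N : ℕ} {ta td t t' : ℕ} {w : Wk} (h : PG N ta td w t t') :
    FBr N (tm w t t') ∧ CW N (tm w t t') ta ∧ CW N (tm w t t') td := by
  have hpl := fun hop => planarG h hop
  obtain ⟨⟨saw, bpos, ble⟩, ⟨ctaN, cta1, cta2⟩, ⟨ctdN, ctd1, ctd2⟩, g1, g2', htt, ltN, up, hup',
    gmx, gmn0, sw, sw', he1, he2, hc1, hc2⟩ := h
  have gmn : ∀ i, t' < i → (w t').1 < (w i).1 := by
    intro i hi
    rcases le_or_gt i N with h1 | h1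
    · exact gmn0 i hi h1
    · rw [saw.const i h1.le]
      exact gmn0 N ltN le_rfl
  have hw0 : (w 0).1 = 0 := by rw [saw.zero]
  have ha0 : 0 ≤ (w ta).1 := by have := cta1 0 (by omega); omega
  obtain ⟨v, hv⟩ : ∃ v, v = tm w t t' := ⟨_, rfl⟩
  have vle : ∀ i, i ≤ t → v i = w i := fun i hi => by rw [hv, tm_le hi]
  have vmid : ∀ i, t < i → i ≤ t' → v i = (2 * (w t).1 - (w i).1, (w i).2) :=
    fun i h1 h2 => by rw [hv, tm_mid h1 h2]
  have vgt : ∀ i, t' < i → v i = ((w i).1 - 2 * ((w t').1 - (w t).1), (w i).2) :=
    fun i h1 => by rw [hv, tm_gt (by omega) h1]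
  have vtd : (v td).1 = (w td).1 - 2 * ((w t').1 - (w t).1) := by
    rcases Nat.eq_or_lt_of_le g2' with h1 | h1
    · rw [← h1, vmid t' htt le_rfl]; simp only; ring
    · rw [vgt td h1]
  have vN : (v N).1 = (w N).1 - 2 * ((w t').1 - (w t).1) := by rw [vgt N (by omega)]
  have hdX : (w td).1 ≤ (w N).1 := ble td (by omega)
  have hc2t := hc2 t le_rfl htt.le
  have hc1t := hc1 t' le_rfl
  have hmn1 := gmn (t' + 1) (by omega)
  have hadj1 := saw.adj t' (by omega)
  have hs1 : (w (t' + 1)).1 = (w t').1 + 1 := by
    have := hadj1.abs_fst; omega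
  have vsnd : ∀ i, (v i).2 = (w i).2 := by
    intro i
    rcases le_or_gt i t with h1 | h1
    · rw [vle i h1]
    · rcases le_or_gt i t' with h2 | h2
      · rw [vmid i h1 h2]
      · rw [vgt i h2]
  have hsaw : Saw N v := by
    constructor
    · rw [vle 0 (by omega)]; exact saw.zero
    · intro i hi
      have ha := saw.adj i hi
      rcases lt_trichotomy i t with h1 | h1 | h1
      · rw [vle i (by omega), vle (i + 1) (by omega)]; exact ha
      · subst h1
        rw [vle i (by omega), vmid (i + 1) (by omega) (by omega)]
        have h3 := ha.refl2 (w i).1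
        have h4 : (2 * (w i).1 - (w i).1, (w i).2) = w i := by
          ext
          · simp only; ring
          · rfl
        rw [h4] at h3
        exact h3
      · rcases lt_trichotomy i t' with h2 | h2 | h2
        · rw [vmid i (by omega) (by omega), vmid (i + 1) (by omega) (by omega)]
          exact ha.refl2 _
        · subst h2
          rw [vmid i (by omega) (by omega), vgt (i + 1) (by omega)]
          have h3 := ha.shift ((w i).1 - (w t).1)
          have h4 : ((w i).1 - 2 * ((w i).1 - (w t).1), (w i).2) =
              (2 * (w t).1 - (w i).1, (w i).2) := by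
            ext
            · simp only; ring
            · rfl
          rw [h4] at h3
          exact h3
        · rw [vgt i (by omega), vgt (i + 1) (by omega)]
          exact ha.shift _
    · have main : ∀ i k, i < k → k ≤ N → v i ≠ v k := by
        intro i k hik hk heq
        rcases Nat.lt_or_ge t i with hi | hi
        · rcases Nat.lt_or_ge t' i with hi' | hi'
          · rw [vgt i hi', vgt k (by omega), Prod.mk.injEq] at heq
            have : w i = w k := by ext <;> omega
            have := saw.inj i k (by omega) hk this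
            omega
          · rcases Nat.lt_or_ge t' k with hk' | hk'
            · rw [vmid i hi hi', vgt k hk', Prod.mk.injEq] at heq
              have h9 : rf w t' i = rf w t' k := by
                rw [rf_le hi', rf_gt hk']
                ext <;> simp only <;> omega
              have := sw'.inj i k (by omega) hk h9
              omega
            · rw [vmid i hi hi', vmid k (by omega) hk', Prod.mk.injEq] at heq
              have : w i = w k := by ext <;> omega
              have := saw.inj i k (by omega) hk this
              omega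
        · rcases Nat.lt_or_ge t k with hk1 | hk1
          · rcases Nat.lt_or_ge t' k with hk' | hk'
            · rw [vle i hi, vgt k hk'] at heq
              rcases lt_or_ge (w t).1 (w t').1 with hop | hop
              · exact hpl hop i k hi hk' hk heq
              · have h1 := gmx i hi
                have h2 := gmn k hk'
                have h3 := congrArg Prod.fst heq
                simp only at h3
                omega
            · rw [vle i hi, vmid k hk1 hk'] at heq
              have h9 : rf w t i = rf w t k := by
                rw [rf_le hi, rf_gt hk1, heq]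
              have := sw.inj i k (by omega) hk h9
              omega
          · rw [vle i hi, vle k hk1] at heq
            have := saw.inj i k (by omega) hk heq
            omega
      intro i k hi hk heq
      rcases lt_trichotomy i k with h | h | h
      · exact absurd heq (main i k h hk)
      · exact h
      · exact absurd heq.symm (main k i h hi)
    · intro i hi
      rw [vgt i (by omega), vgt N (by omega), saw.const i hi]
    · exact saw.al.congr (fun i _ => vsnd i)
  have hbr : FBr N v := by
    refine ⟨hsaw, ?_, ?_⟩
    · intro i hi1 hi2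
      rcases le_or_gt i t with h1 | h1
      · rw [vle i h1]; exact bpos i hi1 hi2
      · rcases le_or_gt i t' with h2 | h2
        · rw [vmid i h1 h2]
          have := hc1 i h2
          simp only
          omega
        · rw [vgt i h2]
          have := gmn i h2
          simp only
          omega
    · intro i hi
      rw [vN]
      rcases le_or_gt i t with h1 | h1
      · rw [vle i h1]
        have := gmx i h1
        omega
      · rcases le_or_gt i t' with h2 | h2
        · rw [vmid i h1 h2]
          have := hc2 i h1.le h2
          simp only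
          omega
        · rw [vgt i h2]
          have := ble i hi
          simp only
          omega
  rw [← hv]
  refine ⟨hbr, ⟨ctaN, ?_, ?_⟩, ⟨ctdN, ?_, ?_⟩⟩
  · intro i hi
    rw [vle i (by omega), vle ta g1]
    exact cta1 i hi
  · intro i hi hiN
    rw [vle ta g1]
    rcases le_or_gt i t with h1 | h1
    · rw [vle i h1]; exact cta2 i hi hiN
    · rcases le_or_gt i t' with h2 | h2
      · rw [vmid i h1 h2]
        have := hc1 i h2
        simp only
        omega
      · rw [vgt i h2]
        have := gmn i h2
        simp only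
        omega
  · intro i hi
    rw [vtd]
    rcases le_or_gt i t with h1 | h1
    · rw [vle i h1]
      have := gmx i h1
      omega
    · rcases le_or_gt i t' with h2 | h2
      · rw [vmid i h1 h2]
        have := hc2 i h1.le h2
        simp only
        omega
      · rw [vgt i h2]
        have := ctd1 i hi
        simp only
        omega
  · intro i hi hiN
    rw [vtd, vgt i (by omega)]
    have := ctd2 i hi hiN
    simp only
    omega

/-- Bridges with windows. -/
structure OmW (N : ℕ) (A B l D0 D : ℤ) (ta td : ℕ) (w : Wk) : Prop where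
  br : FBr N w
  cta : CW N w ta
  ctd : CW N w td
  le : ta ≤ td
  a1 : A ≤ (w ta).1
  a2 : (w ta).1 < A + l
  amin : ∀ t, CW N w t → A ≤ (w t).1 → ta ≤ t
  b1 : B ≤ (w N).1 - (w td).1
  b2 : (w N).1 - (w td).1 < B + l
  bmax : ∀ t, CW N w t → B ≤ (w N).1 - (w t).1 → t ≤ td
  dd : (w td).1 - (w ta).1 < D
  dl : D0 ≤ (w td).1 - (w ta).1

theorem tm_OmW {N : ℕ} {A B l D0 D : ℤ} {ta td t t' : ℕ} {w : Wk} (h : PG N ta td w t t')
    (ho : OmW N A B l D0 D ta td w)
    (hD : (w td).1 - 2 * ((w t').1 - (w t).1) - (w ta).1 < D)
    (hD0 : D0 ≤ (w td).1 - 2 * ((w t').1 - (w t).1) - (w ta).1) :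
    OmW N A B l D0 D ta td (tm w t t') := by
  obtain ⟨k1, k2, k3⟩ := tm_br h
  obtain ⟨⟨saw, bpos, ble⟩, ⟨ctaN, cta1, cta2⟩, ⟨ctdN, ctd1, ctd2⟩, g1, g2', htt, ltN, up, hup',
    gmx, gmn0, sw, sw', he1, he2, hc1, hc2⟩ := h
  obtain ⟨-, -, -, hle, a1, a2, amin, b1, b2, bmax, dd, -⟩ := ho
  obtain ⟨v, hv⟩ : ∃ v, v = tm w t t' := ⟨_, rfl⟩
  have vle : ∀ i, i ≤ t → v i = w i := fun i hi => by rw [hv, tm_le hi]
  have vmid : ∀ i, t < i → i ≤ t' → v i = (2 * (w t).1 - (w i).1, (w i).2) :=
    fun i h1 h2 => by rw [hv, tm_mid h1 h2]
  have vgt : ∀ i, t' < i → v i = ((w i).1 - 2 * ((w t').1 - (w t).1), (w i).2) :=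
    fun i h1 => by rw [hv, tm_gt (by omega) h1]
  have vtd : (v td).1 = (w td).1 - 2 * ((w t').1 - (w t).1) := by
    rcases Nat.eq_or_lt_of_le g2' with h1 | h1
    · rw [← h1, vmid t' htt le_rfl]; simp only; ring
    · rw [vgt td h1]
  have vN : (v N).1 = (w N).1 - 2 * ((w t').1 - (w t).1) := by rw [vgt N (by omega)]
  rw [← hv] at k1 k2 k3 ⊢
  refine ⟨k1, k2, k3, hle, ?_, ?_, ?_, ?_, ?_, ?_, ?_, ?_⟩
  · rw [vle ta g1]; exact a1
  · rw [vle ta g1]; exact a2
  · rintro s ⟨hsN, hs1, hs2⟩ hsA
    by_contra hcon
    have hst : s < ta := by omega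
    rw [vle s (by omega)] at hs1 hs2 hsA
    refine hcon (amin s ⟨hsN, ?_, ?_⟩ hsA)
    · intro i hi
      have := hs1 i hi
      rw [vle i (by omega)] at this
      exact this
    · intro i hi hiN
      rcases le_or_gt i ta with h1 | h1
      · have := hs2 i hi hiN
        rw [vle i (by omega)] at this
        exact this
      · have h2 := cta2 i h1 hiN
        have h3 := cta1 s hst.le
        omega
  · rw [vN, vtd]; omega
  · rw [vN, vtd]; omega
  · rintro s ⟨hsN, hs1, hs2⟩ hsB
    by_contra hcon
    have hst : td < s := by omega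
    rw [vgt s (by omega)] at hs1 hs2 hsB
    rw [vN] at hsB
    simp only at hs1 hs2 hsB
    refine hcon (bmax s ⟨hsN, ?_, ?_⟩ (by omega))
    · intro i hi
      rcases le_or_gt i td with h1 | h1
      · have h2 := ctd1 i h1
        have h3 := ctd2 s hst hsN
        omega
      · have := hs1 i hi
        rw [vgt i (by omega)] at this
        simp only at this
        omega
    · intro i hi hiN
      have := hs2 i hi hiN
      rw [vgt i (by omega)] at this
      simp only at this
      omega
  · rw [vtd, vle ta g1]
    exact hD
  · rw [vtd, vle ta g1]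
    exact hD0

end H500S
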