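import Pool.Agent.H500R3.Saw.Mat
import Pool.Agent.H982R3.RSum

/-!
Counting foldable cut levels, with two logarithms.
-/

set_option linter.unusedSectionVars false

namespace H500S

open H982F (Saw Adj Cut Up fl zf ct SawSet mem_SawSet FBr BrSet mem_BrSet)
open H982R

variable [L : H982.Lat]

open scoped Classical in
/-- last cut time at distance at least `B` from the end level -/
noncomputable def tdf (N : ℕ) (B : ℤ) (w : Wk) : ℕ :=
  Nat.findGreatest (fun t => CW N w t ∧ B ≤ (w N).1 - (w t).1) N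

/-- first cut time at level at least `A` -/
noncomputable def taf (N : ℕ) (A : ℤ) (w : Wk) : ℕ := sInf {t | CW N w t ∧ A ≤ (w t).1}

theorem CW_of_Cut {N : ℕ} {w : Wk} {m : ℤ} {j : ℕ} (hw : Saw N w) (h : Cut N w m j) :
    CW N w j := by
  have h1 := (h.spec hw).1
  refine ⟨h.1.le, fun i hi => ?_, fun i hi _ => ?_⟩
  · rw [h1]; exact h.2.1 i hi
  · have := h.2.2 i hi
    omega

theorem mem_VS_of {N W : ℕ} {A B l D0 α Lm β Lb : ℤ} {w : Wk} {m : ℤ}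
    (hw : w ∈ BrSet N W) (hm : m ∈ H982F.JA N W w) (h3 : A ≤ m) (h4 : B ≤ (w N).1 - m)
    (h5 : (w (taf N A w)).1 < A + l) (h6 : (w N).1 - (w (tdf N B w)).1 < B + l)
    (h7 : α ≤ m - (w (taf N A w)).1) (h7' : m - (w (taf N A w)).1 < Lm)
    (h8 : β ≤ (w (tdf N B w)).1 - m) (h8' : (w (tdf N B w)).1 - m < Lb)
    (h9 : 2 * m - (w N).1 ≤ (w (taf N A w)).1) (h10 : (w (tdf N B w)).1 ≤ 2 * m)
    (h11 : D0 ≤ (w (tdf N B w)).1 - (w (taf N A w)).1) :
    (rf w (ct N w m), taf N A w, tdf N B w) ∈ VS N A B l D0 α Lm β Lb ∧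
      tp N (rf w (ct N w m)) = ct N w m ∧ (w (ct N w m)).1 = m := by
  classical
  rw [mem_BrSet] at hw
  unfold H982F.JA at hm
  simp only [Finset.mem_filter, Finset.mem_Icc] at hm
  obtain ⟨-, hcut, hsaw, hup⟩ := hm
  obtain ⟨j, hj⟩ : ∃ j, j = ct N w m := ⟨_, rfl⟩
  rw [← hj] at hcut hsaw hup ⊢
  have hwj : (w j).1 = m := (hcut.spec hw.1.saw).1
  have hCW : CW N w j := CW_of_Cut hw.1.saw hcut
  have hjN : j < N := hcut.1
  have hsaw' : Saw N (rf w j) := by unfold rf; rw [hwj]; exact hsaw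
  -- ta
  have hta : CW N w (taf N A w) ∧ A ≤ (w (taf N A w)).1 := by
    have : (taf N A w) ∈ {t | CW N w t ∧ A ≤ (w t).1} :=
      Nat.sInf_mem ⟨j, hCW, by omega⟩
    exact this
  have hta' : ∀ t, CW N w t → A ≤ (w t).1 → taf N A w ≤ t := by
    intro t ht1 ht2
    exact Nat.sInf_le ⟨ht1, ht2⟩
  have hPj : CW N w j ∧ B ≤ (w N).1 - (w j).1 := ⟨hCW, by omega⟩
  have htd : CW N w (tdf N B w) ∧ B ≤ (w N).1 - (w (tdf N B w)).1 :=
    Nat.findGreatest_spec (P := fun t => CW N w t ∧ B ≤ (w N).1 - (w t).1) hjN.le hPj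
  have htd' : ∀ t, CW N w t → B ≤ (w N).1 - (w t).1 → t ≤ tdf N B w := by
    intro t ht1 ht2
    exact Nat.le_findGreatest (P := fun t => CW N w t ∧ B ≤ (w N).1 - (w t).1) ht1.1 ⟨ht1, ht2⟩
  have hta1 : taf N A w ≤ j := hta' j hCW (by omega)
  have htd1 : j ≤ tdf N B w := htd' j hCW (by omega)
  obtain ⟨a, ha⟩ : ∃ a, a = taf N A w := ⟨_, rfl⟩
  obtain ⟨d, hd⟩ : ∃ d, d = tdf N B w := ⟨_, rfl⟩
  rw [← ha] at hta hta' hta1 h5 h7 h7' h9 h11 ⊢
  rw [← hd] at htd htd' htd1 h6 h8 h8' h10 h11 ⊢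
  have e1 : ∀ i, i ≤ j → (rf w j i).1 = (w i).1 := fun i hi => by rw [rf_le hi]
  have e2 : ∀ i, j < i → (rf w j i).1 = 2 * m - (w i).1 := fun i hi => by rw [rf_gt hi, hwj]
  have htp : tp N (rf w j) = j := by
    refine tp_eq hjN.le (fun i hi => ?_) (fun i hi hiN => ?_)
    · rw [e1 i hi, e1 j le_rfl]; exact hCW.2.1 i hi
    · rw [e2 i hi, e1 j le_rfl]
      have := hCW.2.2 i hi hiN
      omega
  have e3 : (rf w j d).1 = 2 * m - (w d).1 := by
    rcases Nat.eq_or_lt_of_le htd1 with h | h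
    · rw [← h, e1 j le_rfl, hwj]; ring
    · exact e2 d h
  have hup' : Up (rf w j) j := up_rf_ge le_rfl hup
  refine ⟨?_, htp, hwj⟩
  rw [mem_VS]
  simp only
  refine ⟨hsaw', ?_, ?_, ?_, ?_, ?_, ?_, ?_, ?_, ?_, ?_, ?_⟩
  · rw [htp, rf_rf]
    exact ⟨hw.1, hta.1, htd.1, hta1.trans htd1, hta.2, h5, hta', htd.2, h6, htd', by omega, h11⟩
  · rw [htp]; exact hjN
  · rw [htp]; exact hup'
  · rw [htp]; exact hta1
  · rw [htp]; exact htd1
  · rw [htp, e1 j le_rfl, e1 a hta1, hwj]; exact h7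
  · rw [htp, e1 j le_rfl, e1 a hta1, hwj]; exact h7'
  · rw [htp, e1 j le_rfl, e3, hwj]; omega
  · rw [htp, e1 j le_rfl, e3, hwj]; omega
  · rw [e2 N hjN, e1 a hta1]; exact h9
  · rw [e3]; omega

theorem card_le_VS {N : ℕ} {A B l D0 α Lm β Lb : ℤ} (S : Finset (Wk × ℤ))
    (hS : ∀ p ∈ S, (rf p.1 (ct N p.1 p.2), taf N A p.1, tdf N B p.1) ∈ VS N A B l D0 α Lm β Lb ∧
      tp N (rf p.1 (ct N p.1 p.2)) = ct N p.1 p.2 ∧ (p.1 (ct N p.1 p.2)).1 = p.2) :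
    S.card ≤ (VS N A B l D0 α Lm β Lb).card := by
  classical
  apply Finset.card_le_card_of_injOn
    (fun p : Wk × ℤ => (rf p.1 (ct N p.1 p.2), taf N A p.1, tdf N B p.1))
  · intro p hp
    exact (hS p hp).1
  · rintro ⟨w, m⟩ hp ⟨w', m'⟩ hp' heq
    obtain ⟨-, h2, h3⟩ := hS _ hp
    obtain ⟨-, h2', h3'⟩ := hS _ hp'
    simp only [Prod.mk.injEq] at heq h2 h3 h2' h3'
    obtain ⟨heq, -, -⟩ := heq
    have hjj : ct N w m = ct N w' m' := by rw [← h2, ← h2', heq]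
    have hww : w = w' := by
      rw [← rf_rf w (ct N w m), heq, hjj, rf_rf]
    subst hww
    rw [← h3, ← h3', hjj]

theorem WS_width {N : ℕ} {A B l D0 D : ℤ} {z : Zt} (h : z ∈ WS N A B l D0 D) :
    FBr N z.1 ∧ A + B + D0 ≤ (z.1 N).1 ∧ (z.1 N).1 < A + B + 2 * l + D := by
  rw [mem_WS] at h
  have e1 : (z.1 z.2.1).1 ≤ (z.1 z.2.2).1 := h.ctd.2.1 _ h.le
  have := h.a1
  have := h.a2
  have := h.b1
  have := h.b2
  have := h.dd
  have := h.dl
  exact ⟨h.br, by omega, by omega⟩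

theorem WS_unique {N : ℕ} {A B l D0 D : ℤ} {z z' : Zt} (h : z ∈ WS N A B l D0 D)
    (h' : z' ∈ WS N A B l D0 D) (he : z.1 = z'.1) : z = z' := by
  rw [mem_WS] at h h'
  obtain ⟨w, ta, td⟩ := z
  obtain ⟨w', ta', td'⟩ := z'
  simp only at h h' he
  subst he
  have h1 : ta = ta' := le_antisymm (h.amin _ h'.cta h'.a1) (h'.amin _ h.cta h.a1)
  have h2 : td = td' := le_antisymm (h'.bmax _ h.ctd h.b1) (h.bmax _ h'.ctd h'.b1)
  rw [h1, h2]

theorem WS_overlap {N W : ℕ} {l D : ℤ} (hl : 0 < l) (hD : D ≤ 3 * l) (T : Finset ℕ)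
    (hT : ∀ b ∈ T, 1 ≤ b ∧ l + l * (b : ℤ) ≤ W) (A B : ℕ → ℤ)
    (hAB : ∀ b ∈ T, A b + B b = l * (b : ℤ)) :
    ∑ b ∈ T, (WS N (A b) (B b) l l D).card ≤ 5 * (BrSet N (4 * W)).card := by
  classical
  have h0 : ∀ b ∈ T, (WS N (A b) (B b) l l D).card =
      ((WS N (A b) (B b) l l D).image (fun z => z.1)).card := by
    intro b _
    rw [Finset.card_image_of_injOn]
    intro z hz z' hz' he
    exact WS_unique hz hz' he
  rw [Finset.sum_congr rfl h0]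
  apply Sum_double
  · intro b hb w hw
    rw [Finset.mem_image] at hw
    obtain ⟨z, hz, rfl⟩ := hw
    obtain ⟨h1, h2, h3⟩ := WS_width hz
    rw [hAB b hb] at h2 h3
    obtain ⟨h4, h5⟩ := hT b hb
    rw [mem_BrSet]
    refine ⟨h1, ?_⟩
    have h6 : (1 : ℤ) ≤ b := by exact_mod_cast h4
    have h7 : l ≤ l * (b : ℤ) := by nlinarith
    push_cast
    omega
  · intro w _
    have h8 : ((Finset.Icc ((w N).1 / l - 4) ((w N).1 / l)).card) ≤ 5 := by
      rw [Int.card_Icc]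
      omega
    refine le_trans (Finset.card_le_card_of_injOn (fun b : ℕ => (b : ℤ)) ?_
      (fun a _ b _ h => Int.ofNat_inj.1 h)) h8
    intro b hb
    rw [Finset.mem_coe, Finset.mem_filter] at hb
    obtain ⟨hb, hw⟩ := hb
    rw [Finset.mem_image] at hw
    obtain ⟨z, hz, rfl⟩ := hw
    obtain ⟨h1, h2, h3⟩ := WS_width hz
    rw [hAB b hb] at h2 h3
    rw [Finset.coe_Icc, Set.mem_Icc]
    have e1 : (b : ℤ) ≤ (z.1 N).1 / l := by
      rw [Int.le_ediv_iff_mul_le hl]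
      nlinarith
    have e2 : (z.1 N).1 / l < (b : ℤ) + 5 := by
      rw [Int.ediv_lt_iff_lt_mul hl]
      nlinarith
    refine ⟨?_, ?_⟩
    · show (z.1 N).1 / l - 4 ≤ (b : ℤ)
      omega
    · show (b : ℤ) ≤ (z.1 N).1 / l
      omega

/-- lower ends of the dyadic windows -/
def lo : ℕ → ℤ
  | 0 => 0
  | h + 1 => 2 ^ h

theorem lo_win (h : ℕ) : (2 : ℤ) ^ h ≤ 2 * lo h ∨ (lo h = 0 ∧ (2 : ℤ) ^ h = 1) := by
  cases h with
  | zero => right; exact ⟨rfl, pow_zero 2⟩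
  | succ h => left; show (2 : ℤ) ^ (h + 1) ≤ 2 * 2 ^ h; rw [pow_succ]; omega

theorem exists_win {g : ℕ} {δ : ℤ} (h0 : 0 ≤ δ) (h1 : δ < 2 ^ g) :
    ∃ h, h ∈ Finset.range (g + 1) ∧ lo h ≤ δ ∧ δ < 2 ^ h := by
  rcases Int.le_iff_eq_or_lt.1 h0 with h2 | h2
  · refine ⟨0, by simp, ?_, ?_⟩
    · rw [← h2]; exact le_rfl
    · rw [← h2]; norm_num
  · refine ⟨Nat.log 2 δ.toNat + 1, ?_, ?_, ?_⟩
    · rw [Finset.mem_range]
      have h3 : δ.toNat < 2 ^ g := by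
        zify
        rw [Int.toNat_of_nonneg h0]
        exact h1
      have := Nat.log_lt_of_lt_pow (b := 2) (x := g) (y := δ.toNat) (by omega) h3
      omega
    · show (2 : ℤ) ^ Nat.log 2 δ.toNat ≤ δ
      have := Nat.pow_log_le_self 2 (x := δ.toNat) (by omega)
      zify at this
      rw [Int.toNat_of_nonneg h0] at this
      exact this
    · have := Nat.lt_pow_succ_log_self (b := 2) (by norm_num) δ.toNat
      zify at this
      rw [Int.toNat_of_nonneg h0] at this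
      exact this

end H500S
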