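import Pool.Agent.H500R3.Saw.Clos
import Pool.Agent.H725R3.Match

/-!
The matching of folded objects and bridges, for one window.
-/

set_option linter.unusedSectionVars false

namespace H500S

open H982F (Saw Adj Cut Up fl zf ct SawSet mem_SawSet FBr BrSet mem_BrSet)
open H982R

variable [L : H982.Lat]

open scoped Classical in
/-- Last time of the maximum of the first coordinate. -/
noncomputable def tp (N : ℕ) (w : Wk) : ℕ :=
  Nat.findGreatest (fun t => ∀ i, i ≤ N → (w i).1 ≤ (w t).1) N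

theorem tp_le (N : ℕ) (w : Wk) : tp N w ≤ N := Nat.findGreatest_le N

theorem exists_mx (N : ℕ) (f : ℕ → ℤ) : ∃ m, m ≤ N ∧ ∀ i, i ≤ N → f i ≤ f m := by
  obtain ⟨m, hm, h⟩ := Finset.exists_max_image (Finset.range (N + 1)) f ⟨0, by simp⟩
  rw [Finset.mem_range] at hm
  exact ⟨m, by omega, fun i hi => h i (by rw [Finset.mem_range]; omega)⟩

theorem tp_max {N : ℕ} {w : Wk} : ∀ i, i ≤ N → (w i).1 ≤ (w (tp N w)).1 := by
  classical
  obtain ⟨m, hm, h⟩ := exists_mx N (fun i => (w i).1)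
  exact Nat.findGreatest_spec (P := fun t => ∀ i, i ≤ N → (w i).1 ≤ (w t).1) hm h

theorem tp_last {N : ℕ} {w : Wk} :
    ∀ i, tp N w < i → i ≤ N → (w i).1 < (w (tp N w)).1 := by
  classical
  intro i h1 h2
  have h3 := Nat.findGreatest_is_greatest (P := fun t => ∀ i, i ≤ N → (w i).1 ≤ (w t).1) h1 h2
  by_contra hcon
  apply h3
  intro j hj
  have := tp_max (N := N) (w := w) j hj
  omega

theorem tp_eq {N j : ℕ} {w : Wk} (hj : j ≤ N) (h1 : ∀ i, i ≤ j → (w i).1 ≤ (w j).1)
    (h2 : ∀ i, j < i → i ≤ N → (w i).1 < (w j).1) : tp N w = j := by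
  rcases lt_trichotomy (tp N w) j with h | h | h
  · have a := tp_last (N := N) (w := w) j h hj
    have b := h1 _ h.le
    omega
  · exact h
  · have a := h2 _ h (tp_le N w)
    have b := tp_max (N := N) (w := w) j hj
    omega

/-- Folded objects with windows. -/
structure OmV (N : ℕ) (A B l D0 α Lm β Lb : ℤ) (ta td : ℕ) (v : Wk) : Prop where
  saw : Saw N v
  om : OmW N A B l D0 (Lm + Lb) ta td (rf v (tp N v))
  lt : tp N v < N
  up : Up v (tp N v)
  h1 : ta ≤ tp N v
  h2 : tp N v ≤ td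
  a1 : α ≤ (v (tp N v)).1 - (v ta).1
  a2 : (v (tp N v)).1 - (v ta).1 < Lm
  b1 : β ≤ (v (tp N v)).1 - (v td).1
  b2 : (v (tp N v)).1 - (v td).1 < Lb
  e1 : (v N).1 ≤ (v ta).1
  e2 : 0 ≤ (v td).1

/-- triples -/
abbrev Zt := Wk × ℕ × ℕ

open scoped Classical in
noncomputable def VS (N : ℕ) (A B l D0 α Lm β Lb : ℤ) : Finset Zt :=
  (SawSet N ×ˢ (Finset.range (N + 1) ×ˢ Finset.range (N + 1))).filter
    (fun z => OmV N A B l D0 α Lm β Lb z.2.1 z.2.2 z.1)

open scoped Classical in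
noncomputable def WS (N : ℕ) (A B l D0 D : ℤ) : Finset Zt :=
  (SawSet N ×ˢ (Finset.range (N + 1) ×ˢ Finset.range (N + 1))).filter
    (fun z => OmW N A B l D0 D z.2.1 z.2.2 z.1)

theorem mem_VS {N : ℕ} {A B l D0 α Lm β Lb : ℤ} {z : Zt} :
    z ∈ VS N A B l D0 α Lm β Lb ↔ OmV N A B l D0 α Lm β Lb z.2.1 z.2.2 z.1 := by
  classical
  unfold VS
  rw [Finset.mem_filter]
  refine ⟨fun h => h.2, fun h => ⟨?_, h⟩⟩
  rw [Finset.mem_product, Finset.mem_product, Finset.mem_range, Finset.mem_range]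
  have h1 := h.om.cta.1
  have h2 := h.om.ctd.1
  exact ⟨mem_SawSet.2 h.saw, by omega, by omega⟩

theorem mem_WS {N : ℕ} {A B l D0 D : ℤ} {z : Zt} :
    z ∈ WS N A B l D0 D ↔ OmW N A B l D0 D z.2.1 z.2.2 z.1 := by
  classical
  unfold WS
  rw [Finset.mem_filter]
  refine ⟨fun h => h.2, fun h => ⟨?_, h⟩⟩
  rw [Finset.mem_product, Finset.mem_product, Finset.mem_range, Finset.mem_range]
  have h1 := h.cta.1
  have h2 := h.ctd.1
  exact ⟨mem_SawSet.2 h.br.saw, by omega, by omega⟩

/-- `Up` at `t` is not changed by a reflection after `s ≥ t`. -/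
theorem up_rf_ge {w : Wk} {s t : ℕ} (hts : t ≤ s) (h : Up w t) : Up (rf w s) t := by
  unfold Up at *
  obtain ⟨h1, h2, h3⟩ := h
  have e : ∀ i, (rf w s i).2 = (w i).2 := by
    intro i
    rcases le_or_gt i s with h | h
    · rw [rf_le h]
    · rw [rf_gt h]
  refine ⟨h1, by rw [e, e]; exact h2, ?_⟩
  rw [e, e, rf_le hts, rf_le (show t - 1 ≤ s by omega)]
  exact h3

/-- `Up` at `s` is not changed by a reflection after `t ≤ s`. -/
theorem up_rf_le {w : Wk} {s t : ℕ} (hts : t ≤ s) (h : Up w s) : Up (rf w t) s := by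
  rcases Nat.eq_or_lt_of_le hts with h0 | h0
  · subst h0
    exact up_rf_ge le_rfl h
  unfold Up at *
  obtain ⟨h1, h2, h3⟩ := h
  have e : ∀ i, (rf w t i).2 = (w i).2 := by
    intro i
    rcases le_or_gt i t with h | h
    · rw [rf_le h]
    · rw [rf_gt h]
  refine ⟨h1, by rw [e, e]; exact h2, ?_⟩
  rw [e, e]
  rcases h3 with h3 | h3
  · left
    rw [rf_gt h0]
    rcases Nat.eq_or_lt_of_le (show t ≤ s - 1 by omega) with h4 | h4
    · rw [rf_le h4.symm.le]
      have : (w t).1 = (w s).1 := by rw [h4]; exact h3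
      rw [← h4]
      simp only
      omega
    · rw [rf_gt h4]
      simp only
      omega
  · right; exact h3

theorem card_VS_le {N : ℕ} {A B l D0 α Lm β Lb : ℤ} (hα : Lm ≤ 2 * α ∨ (α = 0 ∧ Lm = 1))
    (hβ : Lb ≤ 2 * β ∨ (β = 0 ∧ Lb = 1)) (h0 : D0 ≤ α ∨ D0 ≤ β) :
    (VS N A B l D0 α Lm β Lb).card ≤ (WS N A B l D0 (Lm + Lb)).card := by
  classical
  obtain ⟨V, hV⟩ : ∃ V, V = VS N A B l D0 α Lm β Lb := ⟨_, rfl⟩
  obtain ⟨W, hW⟩ : ∃ W, W = WS N A B l D0 (Lm + Lb) := ⟨_, rfl⟩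
  have memV : ∀ z, z ∈ V ↔ OmV N A B l D0 α Lm β Lb z.2.1 z.2.2 z.1 := by
    intro z; rw [hV]; exact mem_VS
  have memW : ∀ z, z ∈ W ↔ OmW N A B l D0 (Lm + Lb) z.2.1 z.2.2 z.1 := by
    intro z; rw [hW]; exact mem_WS
  rw [← hV, ← hW]
  have hVW : ∀ z, z ∈ V → z ∈ W → False := by
    intro z h1 h2
    rw [memV] at h1
    rw [memW] at h2
    have h3 := tp_last (N := N) (w := z.1) N h1.lt le_rfl
    have h4 := h2.br.le _ (tp_le N z.1)
    omega
  refine Pool.Agent.H725R3.match_card V W (fun t z => (rf z.1 t, z.2))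
    (fun z t => z.2.1 ≤ t ∧ t ≤ z.2.2 ∧ t < N ∧ Up z.1 t ∧ (∀ i, i ≤ t → (z.1 i).1 ≤ (z.1 t).1) ∧
      α ≤ (z.1 t).1 - (z.1 z.2.1).1 ∧
      ((z ∈ V ∧ (rf z.1 t, z.2) ∈ W) ∨ (z ∈ W ∧ (rf z.1 t, z.2) ∈ V)))
    (fun z s => z.2.1 ≤ s ∧ s ≤ z.2.2 ∧ s < N ∧ Up z.1 s ∧
      ((z ∈ V ∧ (rf z.1 s, z.2) ∈ W ∧ (∀ i, s < i → i ≤ N → (z.1 i).1 < (z.1 s).1) ∧
          β ≤ (z.1 s).1 - (z.1 z.2.2).1) ∨
       (z ∈ W ∧ (rf z.1 s, z.2) ∈ V ∧ (∀ i, s < i → i ≤ N → (z.1 s).1 < (z.1 i).1) ∧
          β ≤ (z.1 z.2.2).1 - (z.1 s).1)))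
    (fun z => tp N z.1) ?_ ?_ ?_ ?_ ?_ ?_ ?_ ?_ ?_
  · intro z t
    simp only [rf_rf]
  · intro z s t
    simp only
    rw [rf_comm]
  · -- hFV
    rintro z hz t ⟨f1, f2, f3, f4, f5, f6, f7⟩
    have h5 : (rf z.1 t, z.2) ∈ W := by
      rcases f7 with h | h
      · exact h.2
      · exact (hVW z hz h.1).elim
    refine ⟨h5, f1, f2, f3, up_rf_ge le_rfl f4, ?_, ?_, Or.inr ⟨h5, ?_⟩⟩
    · intro i hi
      simp only
      rw [rf_le hi, rf_le le_rfl]
      exact f5 i hi
    · simp only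
      rw [rf_le le_rfl, rf_le f1]
      exact f6
    · simp only [rf_rf]
      exact hz
  · -- hGV
    rintro z hz s ⟨g1, g2, g3, g4, g5⟩
    have h5 : (rf z.1 s, z.2) ∈ W ∧ (∀ i, s < i → i ≤ N → (z.1 i).1 < (z.1 s).1) ∧
        β ≤ (z.1 s).1 - (z.1 z.2.2).1 := by
      rcases g5 with h | h
      · exact h.2
      · exact (hVW z hz h.1).elim
    refine ⟨h5.1, g1, g2, g3, up_rf_ge le_rfl g4, Or.inr ⟨h5.1, ?_, ?_, ?_⟩⟩
    · simp only [rf_rf]
      exact hz
    · intro i h6 h7
      simp only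
      rw [rf_le le_rfl, rf_gt h6]
      have := h5.2.1 i h6 h7
      simp only
      omega
    · simp only
      rw [rf_le le_rfl]
      rcases Nat.eq_or_lt_of_le g2 with h6 | h6
      · rw [← h6, rf_le le_rfl]
        have := h5.2.2
        rw [← h6] at this
        omega
      · rw [rf_gt h6]
        have := h5.2.2
        simp only
        omega
  · -- hGW
    rintro z hz s ⟨g1, g2, g3, g4, g5⟩
    have h5 : (rf z.1 s, z.2) ∈ V ∧ (∀ i, s < i → i ≤ N → (z.1 s).1 < (z.1 i).1) ∧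
        β ≤ (z.1 z.2.2).1 - (z.1 s).1 := by
      rcases g5 with h | h
      · exact (hVW z h.1 hz).elim
      · exact h.2
    refine ⟨h5.1, g1, g2, g3, up_rf_ge le_rfl g4, Or.inl ⟨h5.1, ?_, ?_, ?_⟩⟩
    · simp only [rf_rf]
      exact hz
    · intro i h6 h7
      simp only
      rw [rf_le le_rfl, rf_gt h6]
      have := h5.2.1 i h6 h7
      simp only
      omega
    · simp only
      rw [rf_le le_rfl]
      rcases Nat.eq_or_lt_of_le g2 with h6 | h6
      · rw [← h6, rf_le le_rfl]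
        have := h5.2.2
        rw [← h6] at this
        omega
      · rw [rf_gt h6]
        have := h5.2.2
        simp only
        omega
  · -- htopF
    intro z hz
    have h := (memV z).1 hz
    refine ⟨h.h1, h.h2, h.lt, h.up, fun i hi => tp_max i (hi.trans (tp_le N _)), h.a1,
      Or.inl ⟨hz, ?_⟩⟩
    rw [memW]
    exact h.om
  · -- htopG
    intro z hz
    have h := (memV z).1 hz
    refine ⟨h.h1, h.h2, h.lt, h.up, Or.inl ⟨hz, ?_, tp_last, h.b1⟩⟩
    rw [memW]
    exact h.om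
  · -- htop
    rintro z hz t ⟨f1, f2, f3, f4, f5, f6, f7⟩
    by_contra hcon
    push Not at hcon
    have h3 := tp_last (N := N) (w := z.1) t hcon f3.le
    have h4 := f5 _ hcon.le
    omega
  · -- closure
    rintro ⟨w, ta, td⟩ hw t s hts ⟨f1, f2, f3, f4, f5, f6, f7⟩ ⟨g1, g2, g3, g4, g5⟩
    simp only at f1 f2 f3 f4 f5 f6 f7 g1 g2 g3 g4 g5 ⊢
    have hRt : (rf w t, ta, td) ∈ V := by
      rcases f7 with h | h
      · exact (hVW _ h.1 hw).elim
      · exact h.2
    have hRs : (rf w s, ta, td) ∈ V ∧ (∀ i, s < i → i ≤ N → (w s).1 < (w i).1) ∧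
        β ≤ (w td).1 - (w s).1 := by
      rcases g5 with h | h
      · exact (hVW _ h.1 hw).elim
      · exact h.2
    obtain ⟨hRs1, hRs2, hRs3⟩ := hRs
    have vt := (memV _).1 hRt
    have vs := (memV _).1 hRs1
    have wm := (memW _).1 hw
    simp only at vt vs wm
    have hwm := wm
    obtain ⟨ctaN, cta1, cta2⟩ := wm.cta
    obtain ⟨ctdN, ctd1, ctd2⟩ := wm.ctd
    have hmem : (tm w t s, ta, td) ∈ W := by
      rcases Nat.eq_or_lt_of_le hts with hlt | hlt
      · subst hlt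
        rw [tm_self]
        exact hw
      have et : ∀ i, t < i → (rf w t i).1 = 2 * (w t).1 - (w i).1 := fun i hi => by rw [rf_gt hi]
      have et' : ∀ i, i ≤ t → (rf w t i).1 = (w i).1 := fun i hi => by rw [rf_le hi]
      have es : ∀ i, s < i → (rf w s i).1 = 2 * (w s).1 - (w i).1 := fun i hi => by rw [rf_gt hi]
      have es' : ∀ i, i ≤ s → (rf w s i).1 = (w i).1 := fun i hi => by rw [rf_le hi]
      have htdw : (rf w t td).1 = 2 * (w t).1 - (w td).1 := et td (by omega)
      have hsdw : (rf w s td).1 = 2 * (w s).1 - (w td).1 := by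
        rcases Nat.eq_or_lt_of_le g2 with h1 | h1
        · rw [← h1, es' s le_rfl]; ring
        · exact es td h1
      have hta0 : 0 ≤ (w ta).1 := by
        have := cta1 0 (Nat.zero_le _)
        rw [wm.br.saw.zero] at this
        exact this
      have hsta : (w ta).1 < (w s).1 := cta2 s (by omega) (by omega)
      have hstd : (w s).1 ≤ (w td).1 := ctd1 s g2
      -- c1
      have c1 : ∀ i, i ≤ s → (w i).1 < 2 * (w t).1 - (w ta).1 := by
        intro i hi
        have h1 := vs.a2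
        have h2 := tp_max (N := N) (w := rf w s) i (by omega)
        rw [es' i hi] at h2
        rw [es' ta (by omega)] at h1
        rcases hα with h3 | ⟨h3, h4⟩
        · omega
        · exfalso
          have h5 := tp_max (N := N) (w := rf w s) s (by omega)
          rw [es' s le_rfl] at h5
          omega
      have c2 : ∀ i, t ≤ i → i ≤ s → 2 * (w s).1 - (w td).1 ≤ (w i).1 := by
        intro i hi1 hi2
        have h1 := vt.b2
        have h2 := tp_max (N := N) (w := rf w t) i (by omega)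
        have h3 : (rf w t i).1 = 2 * (w t).1 - (w i).1 := by
          rcases Nat.eq_or_lt_of_le hi1 with h4 | h4
          · rw [← h4, et' t le_rfl]; ring
          · exact et i h4
        rw [h3] at h2
        rw [htdw] at h1
        rcases hβ with h4 | ⟨h4, h5⟩
        · omega
        · omega
      have hPG : PG N ta td w t s := by
        refine ⟨wm.br, wm.cta, wm.ctd, f1, g2, hlt, g3, f4, g4, f5, hRs2, vt.saw, vs.saw, ?_, ?_,
          c1, c2⟩
        · have h1 := vt.e1
          rw [et N (by omega), et' ta f1] at h1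
          omega
        · have h1 := vs.e2
          rw [hsdw] at h1
          omega
      rw [memW]
      simp only
      refine tm_OmW hPG wm ?_ (by
        have h1 := c1 s le_rfl
        have h2 := c2 t le_rfl hts
        rcases h0 with h3 | h3 <;> omega)
      have h1 := vs.a2
      have h2 := vs.b2
      have h3 := tp_max (N := N) (w := rf w s) t (by omega)
      rw [es' t hts] at h3
      rw [es' ta (by omega)] at h1
      rw [hsdw] at h2
      omega
    refine ⟨⟨g1, g2, g3, up_rf_le hts g4, Or.inl ⟨hRt, ?_, ?_, ?_⟩⟩,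
      f1, f2, f3, up_rf_ge hts f4, ?_, ?_, Or.inl ⟨hRs1, ?_⟩⟩
    · rw [rf_rf_right hts]
      exact hmem
    · intro i h1 h2
      have h3 := hRs2 i h1 h2
      rw [rf_gt (show t < i by omega)]
      rcases Nat.eq_or_lt_of_le hts with h4 | h4
      · subst h4
        rw [rf_le le_rfl]
        simp only
        omega
      · rw [rf_gt h4]
        simp only
        omega
    · rcases Nat.eq_or_lt_of_le hts with h4 | h4
      · subst h4
        rw [rf_le le_rfl]
        rcases Nat.eq_or_lt_of_le g2 with h5 | h5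
        · rw [← h5, rf_le le_rfl]
          rw [← h5] at hRs3
          omega
        · rw [rf_gt h5]
          simp only
          omega
      · rw [rf_gt h4, rf_gt (show t < td by omega)]
        simp only
        omega
    · intro i hi
      rw [rf_le (show i ≤ s by omega), rf_le hts]
      exact f5 i hi
    · rw [rf_le hts, rf_le g1]
      exact f6
    · rw [rf_rf_left hts]
      exact hmem

end H500S
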