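import Pool.Agent.H982R3.RDefs

/-!
Planarity for pairs of pivots with general windows, for the square, triangular and honeycomb
lattices (the argument of `H982R.planar2`, with weak cut times `ta`, `td` which may be the two
end times, and with explicit conditions on the levels).
-/

set_option linter.unusedSectionVars false

namespace H500S

open H982F
open H982R (Wk rf tm)

variable [L : H982.Lat]

/-- Weak cut times: `0` and `N` are allowed. -/
def CW (N : ℕ) (w : Wk) (t : ℕ) : Prop :=
  t ≤ N ∧ (∀ i, i ≤ t → (w i).1 ≤ (w t).1) ∧ (∀ i, t < i → i ≤ N → (w t).1 < (w i).1)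

/-- The conditions on a bridge `w` and two times `t < t'` under which the T-move is allowed. -/
structure PG (N : ℕ) (ta td : ℕ) (w : Wk) (t t' : ℕ) : Prop where
  br : FBr N w
  cta : CW N w ta
  ctd : CW N w td
  h1 : ta ≤ t
  h2 : t' ≤ td
  lt : t < t'
  ltN : t' < N
  up : Up w t
  up' : Up w t'
  mx : ∀ i, i ≤ t → (w i).1 ≤ (w t).1
  mn : ∀ i, t' < i → i ≤ N → (w t').1 < (w i).1
  sw : Saw N (rf w t)
  sw' : Saw N (rf w t')
  e1 : 2 * (w t).1 - (w ta).1 ≤ (w N).1
  e2 : (w td).1 ≤ 2 * (w t').1
  c1 : ∀ i, i ≤ t' → (w i).1 < 2 * (w t).1 - (w ta).1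
  c2 : ∀ i, t ≤ i → i ≤ t' → 2 * (w t').1 - (w td).1 ≤ (w i).1

theorem planarG {N : ℕ} {ta td t t' : ℕ} {w : Wk} (h : PG N ta td w t t')
    (hop : (w t).1 < (w t').1) :
    ∀ i k, i ≤ t → t' < k → k ≤ N → w i ≠ ((w k).1 - 2 * ((w t').1 - (w t).1), (w k).2) := by
  intro i k hi hk hkN heq
  have hw : Saw N w := h.br.saw
  obtain ⟨taN, cta1, cta2⟩ := h.cta
  obtain ⟨tdN, ctd1, ctd2⟩ := h.ctd
  have hpos := h.br.pos
  have hle := h.br.le
  have gf1 := h.h1
  have oj := h.up
  have mx := h.mx
  have sw1 := h.sw
  have gb2 := h.h2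
  have oj' := h.up'
  have mn0 := h.mn
  have sw2 := h.sw'
  have htN : t' < N := h.ltN
  have htt : t < t' := h.lt
  have mn : ∀ i, t' < i → (w t').1 < (w i).1 := by
    intro i hi
    rcases le_or_gt i N with h1 | h1
    · exact mn0 i hi h1
    · rw [hw.const i h1.le]
      exact mn0 N htN le_rfl
  have hx0 : (w 0).1 = 0 := by rw [hw.zero]
  have E1 := h.e1
  have E2 := h.e2
  have hc1 := h.c1
  have hc1' := h.c1 t' le_rfl
  have hc2 := h.c2 t le_rfl htt.le
  have haj := mx ta gf1
  have hj0 := mx 0 (by omega)
  have hjd := ctd1 t' gb2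
  have ha0 := cta1 0 (by omega)
  -- coordinates
  obtain ⟨j, hj⟩ : ∃ j, (w t).1 = j := ⟨_, rfl⟩
  obtain ⟨j', hj'⟩ : ∃ j', (w t').1 = j' := ⟨_, rfl⟩
  obtain ⟨a, ha⟩ : ∃ a, (w ta).1 = a := ⟨_, rfl⟩
  obtain ⟨d, hd⟩ : ∃ d, (w td).1 = d := ⟨_, rfl⟩
  rw [hj, hj'] at heq
  simp only [rf] at sw1 sw2
  rw [hj] at sw1 hop haj hj0 hc1' hc2 E1
  rw [hj'] at sw2 hop hjd hc1' hc2 E2
  rw [ha] at haj cta1 cta2 hc1' ha0 E1
  rw [hd] at hjd ctd1 ctd2 hc2 E2
  simp only [hj] at mx
  simp only [hj'] at mn
  simp only [hj, ha] at hc1
  rw [hx0] at ha0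
  have h1pos : (w 1).1 = 1 := by
    have e1 := (hw.adj 0 (by omega)).abs_fst
    have e2 := hpos 1 le_rfl (by omega)
    rw [hx0] at e1
    simp only [zero_add] at e1
    omega
  -- the reflected walk
  obtain ⟨γ, hγ⟩ : ∃ γ : ℕ → ℤ × ℤ, ∀ i, γ i = (2 * j - (w i).1, (w i).2) := ⟨_, fun _ => rfl⟩
  obtain ⟨V, hV⟩ : ∃ V : ℕ → ℤ × ℤ, ∀ i, V i = ((w i).1 - 2 * (j' - j), (w i).2) :=
    ⟨_, fun _ => rfl⟩
  have hγadj : ∀ i, i < N → Adj (γ i) (γ (i + 1)) := by
    intro i hi
    rw [hγ, hγ]
    exact (hw.adj i hi).refl2 j
  have hVadj : ∀ i, i < N → Adj (V i) (V (i + 1)) := by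
    intro i hi
    rw [hV, hV]
    exact (hw.adj i hi).shift (j' - j)
  have hγpar : ∀ i, Par (γ i) := by
    intro i
    rw [hγ]
    exact (hw.par i).refl2 j
  have hVpar : ∀ i, Par (V i) := by
    intro i
    rw [hV]
    exact (hw.par i).shift (j' - j)
  have hxe : (w i).1 = (w k).1 - 2 * (j' - j) := congrArg Prod.fst heq
  have hye : (w i).2 = (w k).2 := by
    have h0 := congrArg Prod.snd heq
    simpa using h0
  have hxk := mn k hk
  have hxi := mx i hi
  -- the case i = t
  rcases Nat.lt_or_ge i t with hit | hit
  swap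
  · have hit : i = t := le_antisymm hi hit
    subst hit
    have h1 : fl w j' t' i = fl w j' t' k := by
      rw [fl_le (by omega), fl_gt hk]
      ext
      · simp only; omega
      · simp only; exact hye
    have := sw2.inj i k (by omega) hkN h1
    omega
  have hita : ta < i := by
    by_contra hcon
    have := cta1 i (by omega)
    omega
  have hktd : k ≤ td := by
    by_contra hcon
    have := ctd2 k (by omega) hkN
    omega
  have hmnN := mn N (by omega)
  have ht1' : t - 1 + 1 = t := by have := oj.1; omega
  have ht2' : t' - 1 + 1 = t' := by have := oj'.1; omega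
  -- the point before `w t`
  obtain ⟨P, hP⟩ : ∃ P, w (t - 1) = P := ⟨_, rfl⟩
  have hPadj : Adj P (w t) := by
    have := hw.adj (t - 1) (by omega)
    rw [ht1', hP] at this
    exact this
  have hPup : P.2 < (w t).2 := by rw [← hP]; exact oj.2.1
  have hPcol : a + 1 ≤ P.1 ∧ P.1 ≤ j := by
    rw [← hP]
    exact ⟨cta2 (t - 1) (by omega) (by omega), mx (t - 1) (by omega)⟩
  have hPpar : L.kind = .tri → (P.1 + P.2) % 2 = 0 := by
    rw [← hP]; exact hw.par (t - 1)
  have hPav : ∀ l, t ≤ l → l ≤ N → w l ≠ (P.1, P.2) := by
    intro l h3 h4 h5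
    have h6 : w l = w (t - 1) := by rw [hP]; exact h5
    have := hw.inj l (t - 1) h4 (by omega) h6
    omega
  -- the parity of `w` at `P` vanishes
  have hUP : U w t N P.1 P.2 = 0 := by
    have h6 := U_const w w t N 1 (t - 1) 1 j (by omega) (by omega)
      (fun l _ h2 => hw.adj l h2) (fun l _ h2 => hw.adj l (by omega))
      (fun l _ _ => hw.par l) (fun l _ _ => hw.par l)
      (fun l h1 h2 => ⟨hpos l h1 (by omega), mx l (by omega)⟩)
      (by
        intro l h1 h2 n h3 h4 h5
        have := hw.inj n l h4 (by omega) h5
        omega)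
      (by omega) (by right; omega)
    rw [hP] at h6
    rw [← h6]
    apply U_eq_zero
    intro l h7 h8
    right
    have := hpos l (by omega) (by omega)
    have := hpos (l + 1) (by omega) (by omega)
    omega
  -- claim 1
  have c1 : U γ t N (w i).1 (w i).2 = 1 := by
    have hgav : ∀ l, i ≤ l → l ≤ t - 1 → ∀ n, t ≤ n → n ≤ N → γ n ≠ w l := by
      intro l h1 h2 n h3 h4 h5
      rcases Nat.eq_or_lt_of_le h3 with h6 | h6
      · subst h6
        have : w t = w l := by
          rw [← h5, hγ]
          ext <;> simp [hj]; omega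
        have := hw.inj t l (by omega) (by omega) this
        omega
      · have h7 : fl w j t l = fl w j t n := by
          rw [fl_gt h6, fl_le (by omega), ← hγ, h5]
        have := sw1.inj l n (by omega) h4 h7
        omega
    have h1 := U_const γ w t N i (t - 1) (a + 1) j (by omega) (by omega)
      (fun l _ h2 => hγadj l h2) (fun l _ h2 => hw.adj l (by omega))
      (fun l _ _ => hγpar l) (fun l _ _ => hw.par l)
      (fun l h1 h2 => ⟨cta2 l (by omega) (by omega), mx l (by omega)⟩) hgav
      (by rw [hγ]; simp only; omega)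
      (by rw [hγ]; simp only; omega)
    rw [h1, hP]
    have h3 : sIn (w t) j P.2 = 1 := by
      unfold sIn
      rw [if_pos ⟨hj, hPup⟩]
    have h4 : sIn (w N) j P.2 = 0 := by
      unfold sIn
      rw [if_neg]
      omega
    rcases hPadj.cases_up hPup with ⟨g1, -⟩ | ⟨g1, g2, g3⟩
    · -- vertical arrival
      have g1' : P.1 = j := by rw [g1, hj]
      rw [U_mirror w γ j hγ, g1', show 2 * j - j + 1 = j + 1 by ring]
      have h2 := U_horiz w t N (by omega) j P.2 (fun l _ h2 => hw.adj l h2)
        (fun l _ _ => hw.par l) (by rw [← g1']; exact hPpar)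
        (by rw [← g1']; exact hPav)
      rw [g1'] at hUP
      rw [h3, h4, hUP, zero_add, add_zero] at h2
      exact h2
    · -- diagonal arrival (triangular lattice)
      have g4 : P.1 = j - 1 := by omega
      have hup2 : (w t).2 < (w (t + 1)).2 := by
        rcases oj.2.2 with h5 | h5
        · rw [hP] at h5; omega
        · exact h5
      have hPγ := U_horiz γ t N (by omega) P.1 P.2 (fun l _ h2 => hγadj l h2)
        (fun l _ _ => hγpar l) hPpar
        (by
          intro l h5 h6 h7
          refine hgav (t - 1) (by omega) le_rfl l h5 h6 ?_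
          rw [h7, hP])
      have e1 : sIn (γ t) P.1 P.2 = 0 := by
        unfold sIn
        rw [if_neg]
        rw [hγ]
        simp only
        omega
      have e2 : sIn (γ N) P.1 P.2 = 0 := by
        unfold sIn
        rw [if_neg]
        rw [hγ]
        simp only
        omega
      rw [e1, e2, add_zero] at hPγ
      rw [eq_of_add_zero _ _ hPγ, g4, show j - 1 + 1 = j by ring, U_mirror w γ j hγ,
        show 2 * j - j + 1 = j + 1 by ring]
      have hPw := U_horiz w t N (by omega) P.1 P.2 (fun l _ h2 => hw.adj l h2)
        (fun l _ _ => hw.par l) hPpar hPav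
      have e3 : sIn (w t) P.1 P.2 = 0 := by
        unfold sIn
        rw [if_neg]
        omega
      have e4 : sIn (w N) P.1 P.2 = 0 := by
        unfold sIn
        rw [if_neg]
        omega
      rw [e3, e4, add_zero] at hPw
      have h5 : U w t N j P.2 = 0 := by
        rw [g4, show j - 1 + 1 = j by ring] at hPw
        rw [← eq_of_add_zero _ _ hPw, ← g4]
        exact hUP
      have h2 := U_gen w t N (by omega) j P.2 (fun l _ h2 => hw.adj l h2)
        (fun l _ _ => hw.par l)
        (by
          intro l _ _ h6 h7
          exfalso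
          have := hPpar h6
          omega)
      have h6 : Vc w t N j P.2 = 0 := by
        unfold Vc
        refine Finset.sum_eq_zero (fun m hm => ?_)
        rw [Finset.mem_Ico] at hm
        unfold vInd
        rw [if_neg]
        rintro ⟨q1, q2, q3⟩
        have hadj := hw.adj m (by omega)
        have p1 := hw.par m g1
        have p2 := hw.par (m + 1) g1
        have p3 := hPpar g1
        unfold Adj at hadj
        simp only [g1] at hadj
        rcases Nat.eq_or_lt_of_le hm.1 with h7 | h7
        · rw [← h7] at q3 hadj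
          omega
        · have n1 : w m ≠ w t := fun hh => by
            have := hw.inj m t (by omega) (by omega) hh
            omega
          have n2 : w (m + 1) ≠ w t := fun hh => by
            have := hw.inj (m + 1) t (by omega) (by omega) hh
            omega
          have n1' : ¬ ((w m).1 = (w t).1 ∧ (w m).2 = (w t).2) := fun hh =>
            n1 (Prod.ext hh.1 hh.2)
          have n2' : ¬ ((w (m + 1)).1 = (w t).1 ∧ (w (m + 1)).2 = (w t).2) := fun hh =>
            n2 (Prod.ext hh.1 hh.2)
          omega
      rw [h3, h4, h5, h6, zero_add, add_zero, add_zero] at h2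
      exact h2
  -- claim 2
  have hadj' := hw.adj t' htN
  have hmn' := mn (t' + 1) (by omega)
  have hfst' : (w (t' + 1)).1 = j' + 1 := by
    have := hadj'.abs_fst
    omega
  obtain ⟨y, hy⟩ : ∃ y, (w (t' + 1)).2 = y := ⟨_, rfl⟩
  have c2 : U γ 0 t' (V k).1 (V k).2 = 0 := by
    have h1 := U_const γ V 0 t' (t' + 1) k (2 * j - j' + 1) (d - 2 * (j' - j)) (by omega) hk
      (fun l _ h2 => hγadj l (by omega)) (fun l _ h2 => hVadj l (by omega))
      (fun l _ _ => hγpar l) (fun l _ _ => hVpar l)
      (by
        intro l h1 h2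
        have h3 := mn l (by omega)
        have h4 := ctd1 l (by omega)
        rw [hV]
        simp only
        omega)
      (by
        intro l h1 h2 n h3 h4 h5
        have h6 : fl w j' t' n = fl w j' t' l := by
          rw [fl_le h4, fl_gt (by omega)]
          rw [hγ, hV, Prod.mk.injEq] at h5
          ext
          · simp only; omega
          · simp only; exact h5.2
        have := sw2.inj n l (by omega) (by omega) h6
        omega)
      (by rw [hγ, hx0]; simp only; omega)
      (by rw [hγ, hj']; simp only; omega)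
    rw [← h1]
    have hV1 : V (t' + 1) = (2 * j - j' + 1, y) := by
      rw [hV, hfst', hy]
      ext <;> simp; omega
    rw [hV1]
    simp only
    rw [U_mirror w γ j hγ, show 2 * j - (2 * j - j' + 1) + 1 = j' by ring]
    -- the point before `w t'`
    obtain ⟨P', hP'⟩ : ∃ P, w (t' - 1) = P := ⟨_, rfl⟩
    have hPadj' : Adj P' (w t') := by
      have := hw.adj (t' - 1) (by omega)
      rw [ht2', hP'] at this
      exact this
    have hPup' : P'.2 < (w t').2 := by rw [← hP']; exact oj'.2.1
    have hPor : P'.1 = (w t').1 ∨ (w t').2 < y := by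
      rw [← hP', ← hy]; exact oj'.2.2
    have pt' := hw.par t'
    have pt1 := hw.par (t' + 1)
    have hU2 : U w 0 t' (j' + 1) y = 0 := by
      have h7 := U_const w w 0 t' (t' + 1) N (j' + 1) (w N).1 (by omega) (by omega)
        (fun l _ h2 => hw.adj l (by omega)) (fun l _ h2 => hw.adj l (by omega))
        (fun l _ _ => hw.par l) (fun l _ _ => hw.par l)
        (by
          intro l h8 h9
          have h10 := mn l (by omega)
          exact ⟨by omega, hle l h9⟩)
        (by
          intro l h8 h9 n h10 h11 h12
          have := hw.inj n l (by omega) (by omega) h12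
          omega)
        (by omega) (by left; omega)
      rw [hfst', hy] at h7
      rw [h7]
      apply U_eq_zero
      intro l h8 h9
      left
      have := hc1 l (by omega)
      have := hc1 (l + 1) (by omega)
      omega
    have h3 := U_gen w 0 t' (by omega) j' y (fun l _ h2 => hw.adj l (by omega))
      (fun l _ _ => hw.par l)
      (by
        intro l _ _ h6 h7
        exfalso
        have := pt1 h6
        omega)
    have h5 : sIn (w 0) j' y = 0 := by
      unfold sIn
      rw [if_neg]
      rw [hx0]
      omega
    -- vertical edges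
    have hn : ∀ m, m < t' - 1 → vInd (w m) (w (m + 1)) j' y = 0 := by
      intro m hm
      unfold vInd
      rw [if_neg]
      rintro ⟨q1, q2, q3⟩
      have hadj := hw.adj m (by omega)
      have p1 := hw.par m
      have p2 := hw.par (m + 1)
      have n1 : w m ≠ w t' := fun hh => by
        have := hw.inj m t' (by omega) (by omega) hh
        omega
      have n2 : w (m + 1) ≠ w t' := fun hh => by
        have := hw.inj (m + 1) t' (by omega) (by omega) hh
        omega
      have n1' : ¬ ((w m).1 = (w t').1 ∧ (w m).2 = (w t').2) := fun hh =>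
        n1 (Prod.ext hh.1 hh.2)
      have n2' : ¬ ((w (m + 1)).1 = (w t').1 ∧ (w (m + 1)).2 = (w t').2) := fun hh =>
        n2 (Prod.ext hh.1 hh.2)
      have hadj2 := hadj'
      unfold Adj at hadj hadj2
      cases hk : L.kind with
      | tri =>
        have p1' := p1 hk
        have p3' := pt' hk
        simp only [hk] at hadj hadj2
        omega
      | sq =>
        simp only [hk] at hadj hadj2
        omega
      | hex =>
        simp only [hk] at hadj hadj2
        omega
    have hVc : Vc w 0 t' j' y = vInd P' (w t') j' y := by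
      unfold Vc
      rw [← ht2', Finset.sum_Ico_succ_top (by omega), ht2', hP']
      rw [Finset.sum_eq_zero, zero_add]
      intro m hm
      rw [Finset.mem_Ico] at hm
      exact hn m hm.2
    have h6 : sIn (w t') j' y + vInd P' (w t') j' y = 0 := by
      have hadj2 := hadj'
      unfold Adj at hPadj' hadj2
      unfold sIn vInd
      cases hk : L.kind with
      | tri =>
        simp only [hk] at hPadj' hadj2
        by_cases hyy : y < (w t').2
        · rw [if_pos ⟨hj', hyy⟩, if_pos]
          · decide
          · omega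
        · rw [if_neg (by omega), if_neg (by omega), add_zero]
      | sq =>
        simp only [hk] at hPadj' hadj2
        rw [if_neg (by omega), if_neg (by omega), add_zero]
      | hex =>
        simp only [hk] at hPadj' hadj2
        rw [if_neg (by omega), if_neg (by omega), add_zero]
    rw [hU2, hVc, h5, zero_add, add_zero] at h3
    rw [h3]
    exact h6
  -- claim 3
  have c3 : U γ t N (w i).1 (w i).2 = U γ 0 t' (w i).1 (w i).2 := by
    rw [U_split γ (a := t) (b := t') (c := N) (by omega) (by omega),
      U_split γ (a := 0) (b := t) (c := t') (by omega) (by omega)]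
    have h1 : U γ t' N (w i).1 (w i).2 = 0 := by
      apply U_eq_zero
      intro l h1 h2
      left
      rw [hγ, hγ]
      have h3 := mn (l + 1) (by omega)
      have h4 : j' ≤ (w l).1 := by
        rcases Nat.eq_or_lt_of_le h1 with h5 | h5
        · rw [← h5]; omega
        · have := mn l h5; omega
      simp only
      omega
    have h2 : U γ 0 t (w i).1 (w i).2 = 0 := by
      apply U_eq_zero
      intro l h1 h2
      right
      rw [hγ, hγ]
      have := mx l (by omega)
      have := mx (l + 1) (by omega)
      simp only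
      omega
    rw [h1, h2, add_zero, zero_add]
  have hVk : V k = w i := by rw [hV, ← heq]
  rw [hVk] at c2
  rw [c3, c2] at c1
  exact absurd c1 (by decide)

end H500S
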