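import Pool.Agent.H500R3.Saw.Cnt

/-!
Summation over the scales.
-/

set_option linter.unusedSectionVars false

namespace H500S

open H982F (Saw Adj Cut Up fl zf ct SawSet mem_SawSet FBr BrSet mem_BrSet)
open H982R
open scoped ENNReal

variable [L : H982.Lat]

lemma pairs_step (N W : ℕ) : (Sum_pairs N W).card ≤
    ∑ g ∈ Finset.range (Nat.log 2 W + 1), ∑ b ∈ Sum_T W g, ∑ h ∈ Finset.range (g + 1),
      ((VS N 0 (2 ^ g * (b : ℤ)) (2 ^ g) (2 ^ g) (2 ^ g) (2 ^ g + 2 ^ g) (lo h) (2 ^ h)).card +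
       (VS N (2 ^ g * (b : ℤ)) 0 (2 ^ g) (2 ^ g) (lo h) (2 ^ h) (2 ^ g) (2 ^ g + 2 ^ g)).card) := by
  classical
  set SL : ℕ → ℕ → ℕ → Finset (Wk × ℤ) := fun g b h => (Sum_pairs N W).filter (fun p =>
    (2 : ℤ) ^ g ≤ p.2 ∧ p.2 < 2 ^ g + 2 ^ g ∧ 2 ^ g * (b : ℤ) ≤ (p.1 N).1 - p.2 ∧
      (p.1 N).1 - p.2 < 2 ^ g * (b : ℤ) + 2 ^ g ∧ 2 * p.2 ≤ (p.1 N).1 ∧
      lo h ≤ (p.1 (tdf N (2 ^ g * (b : ℤ)) p.1)).1 - p.2 ∧
      (p.1 (tdf N (2 ^ g * (b : ℤ)) p.1)).1 - p.2 < 2 ^ h) with hSL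
  set SR : ℕ → ℕ → ℕ → Finset (Wk × ℤ) := fun g b h => (Sum_pairs N W).filter (fun p =>
    (2 : ℤ) ^ g * (b : ℤ) ≤ p.2 ∧ p.2 < 2 ^ g * (b : ℤ) + 2 ^ g ∧ 2 ^ g ≤ (p.1 N).1 - p.2 ∧
      (p.1 N).1 - p.2 < 2 ^ g + 2 ^ g ∧ (p.1 N).1 ≤ 2 * p.2 ∧
      lo h ≤ p.2 - (p.1 (taf N (2 ^ g * (b : ℤ)) p.1)).1 ∧
      p.2 - (p.1 (taf N (2 ^ g * (b : ℤ)) p.1)).1 < 2 ^ h) with hSR
  have hmem : ∀ p ∈ Sum_pairs N W, p.1 ∈ BrSet N W ∧ p.2 ∈ H982F.JA N W p.1 := by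
    intro p hp
    unfold Sum_pairs at hp
    rw [Finset.mem_filter, Finset.mem_product] at hp
    exact ⟨hp.1.1, hp.2⟩
  have hcutp : ∀ p ∈ Sum_pairs N W, CW N p.1 (ct N p.1 p.2) ∧ (p.1 (ct N p.1 p.2)).1 = p.2 := by
    intro p hp
    obtain ⟨h1, h2⟩ := hmem p hp
    rw [mem_BrSet] at h1
    unfold H982F.JA at h2
    simp only [Finset.mem_filter] at h2
    exact ⟨CW_of_Cut h1.1.saw h2.2.1, (h2.2.1.spec h1.1.saw).1⟩
  -- the last cut time
  have htd : ∀ p ∈ Sum_pairs N W, ∀ B : ℤ, B ≤ (p.1 N).1 - p.2 →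
      p.2 ≤ (p.1 (tdf N B p.1)).1 ∧ B ≤ (p.1 N).1 - (p.1 (tdf N B p.1)).1 := by
    intro p hp B hB
    obtain ⟨h1, h2⟩ := hcutp p hp
    have hPj : CW N p.1 (ct N p.1 p.2) ∧ B ≤ (p.1 N).1 - (p.1 (ct N p.1 p.2)).1 :=
      ⟨h1, by rw [h2]; exact hB⟩
    have h3 : CW N p.1 (tdf N B p.1) ∧ B ≤ (p.1 N).1 - (p.1 (tdf N B p.1)).1 :=
      Nat.findGreatest_spec (P := fun t => CW N p.1 t ∧ B ≤ (p.1 N).1 - (p.1 t).1) h1.1 hPj
    have h4 : ct N p.1 p.2 ≤ tdf N B p.1 :=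
      Nat.le_findGreatest (P := fun t => CW N p.1 t ∧ B ≤ (p.1 N).1 - (p.1 t).1) h1.1 hPj
    have h5 := h3.1.2.1 _ h4
    rw [h2] at h5
    exact ⟨h5, h3.2⟩
  have hta : ∀ p ∈ Sum_pairs N W, ∀ A : ℤ, A ≤ p.2 →
      (p.1 (taf N A p.1)).1 ≤ p.2 ∧ A ≤ (p.1 (taf N A p.1)).1 := by
    intro p hp A hA
    obtain ⟨h1, h2⟩ := hcutp p hp
    have h3 : (taf N A p.1) ∈ {t | CW N p.1 t ∧ A ≤ (p.1 t).1} :=
      Nat.sInf_mem ⟨_, h1, by rw [h2]; exact hA⟩
    have h4 : taf N A p.1 ≤ ct N p.1 p.2 := Nat.sInf_le ⟨h1, by rw [h2]; exact hA⟩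
    have h5 := h1.2.1 _ h4
    rw [h2] at h5
    exact ⟨h5, h3.2⟩
  have hta0 : ∀ p ∈ Sum_pairs N W, (p.1 (taf N 0 p.1)).1 = 0 := by
    intro p hp
    have h1 := (hmem p hp).1
    rw [mem_BrSet] at h1
    have h0 : (p.1 0).1 = 0 := by rw [h1.1.saw.zero]
    have h2 : taf N 0 p.1 ≤ 0 := by
      refine Nat.sInf_le ⟨⟨Nat.zero_le _, fun i hi => ?_, fun i hi hiN => ?_⟩, ?_⟩
      · have : i = 0 := by omega
        rw [this]
      · rw [h0]; exact h1.1.pos i (by omega) hiN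
      · rw [h0]
    have h3 : taf N 0 p.1 = 0 := by omega
    rw [h3, h0]
  have htd0 : ∀ p ∈ Sum_pairs N W, tdf N 0 p.1 = N := by
    intro p hp
    have h1 := (hmem p hp).1
    rw [mem_BrSet] at h1
    have h2 : N ≤ tdf N 0 p.1 :=
      Nat.le_findGreatest (P := fun t => CW N p.1 t ∧ (0 : ℤ) ≤ (p.1 N).1 - (p.1 t).1) le_rfl
        ⟨⟨le_rfl, fun i hi => h1.1.le i hi, fun i hi hiN => absurd hi (by omega)⟩, by omega⟩
    have h3 : tdf N 0 p.1 ≤ N := Nat.findGreatest_le N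
    omega
  have hL : ∀ g b h, (SL g b h).card ≤
      (VS N 0 (2 ^ g * (b : ℤ)) (2 ^ g) (2 ^ g) (2 ^ g) (2 ^ g + 2 ^ g) (lo h) (2 ^ h)).card := by
    intro g b h
    apply card_le_VS
    intro p hp
    rw [hSL] at hp
    simp only [Finset.mem_filter] at hp
    obtain ⟨hp, k1, k2, k3, k4, k5, k6, k7⟩ := hp
    obtain ⟨h1, h2⟩ := hmem p hp
    have hl : (0 : ℤ) < 2 ^ g := by positivity
    have e0 := hta0 p hp
    obtain ⟨e1, e2⟩ := htd p hp (2 ^ g * (b : ℤ)) k3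
    refine mem_VS_of h1 h2 (by omega) k3 ?_ ?_ ?_ ?_ k6 k7 ?_ ?_ (by rw [e0]; omega)
    · rw [e0]; omega
    · omega
    · rw [e0]; omega
    · rw [e0]; omega
    · rw [e0]; omega
    · omega
  have hR : ∀ g b h, (SR g b h).card ≤
      (VS N (2 ^ g * (b : ℤ)) 0 (2 ^ g) (2 ^ g) (lo h) (2 ^ h) (2 ^ g) (2 ^ g + 2 ^ g)).card := by
    intro g b h
    apply card_le_VS
    intro p hp
    rw [hSR] at hp
    simp only [Finset.mem_filter] at hp
    obtain ⟨hp, k1, k2, k3, k4, k5, k6, k7⟩ := hp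
    obtain ⟨h1, h2⟩ := hmem p hp
    have hl : (0 : ℤ) < 2 ^ g := by positivity
    have e0 := htd0 p hp
    obtain ⟨e1, e2⟩ := hta p hp (2 ^ g * (b : ℤ)) k1
    refine mem_VS_of h1 h2 k1 (by omega) (by omega) ?_ k6 k7 ?_ ?_ ?_ ?_ (by rw [e0]; omega)
    · rw [e0]; omega
    · rw [e0]; omega
    · rw [e0]; omega
    · omega
    · rw [e0]; omega
  have hcov : Sum_pairs N W ⊆ (Finset.range (Nat.log 2 W + 1)).biUnion
      (fun g => (Sum_T W g).biUnion (fun b => (Finset.range (g + 1)).biUnion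
        (fun h => SL g b h ∪ SR g b h))) := by
    intro p hp
    obtain ⟨h1, h2⟩ := hmem p hp
    have h2' := h2
    unfold H982F.JA at h2'
    simp only [Finset.mem_filter, Finset.mem_Icc] at h2'
    obtain ⟨⟨h3, h4⟩, h5⟩ := h2'
    rw [mem_BrSet] at h1
    have hN : p.2 + 1 ≤ (p.1 N).1 := h5.1.2.2 N h5.1.1
    set X := (p.1 N).1 with hX
    rw [Finset.mem_biUnion]
    have hscale : ∀ y : ℤ, 1 ≤ y → y ≤ W → ∃ g, g ∈ Finset.range (Nat.log 2 W + 1) ∧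
        (2 : ℤ) ^ g ≤ y ∧ y < 2 ^ g + 2 ^ g := by
      intro y hy1 hy2
      refine ⟨Nat.log 2 y.toNat, ?_, ?_, ?_⟩
      · rw [Finset.mem_range]
        have : Nat.log 2 y.toNat ≤ Nat.log 2 W := Nat.log_mono_right (by omega)
        omega
      · have := Nat.pow_log_le_self 2 (x := y.toNat) (by omega)
        zify at this
        rw [Int.toNat_of_nonneg (by omega)] at this
        exact this
      · have := Nat.lt_pow_succ_log_self (b := 2) (by norm_num) y.toNat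
        zify at this
        rw [Int.toNat_of_nonneg (by omega), pow_succ] at this
        omega
    have hb : ∀ (l y x : ℤ), 0 < l → l ≤ y → l ≤ x → x + y ≤ W → ∃ b : ℕ, 1 ≤ b ∧ b ≤ W ∧
        l + l * (b : ℤ) ≤ W ∧ l * (b : ℤ) ≤ y ∧ y < l * (b : ℤ) + l := by
      intro l y x hl hly hlx hxy
      have hq0 : 0 ≤ y / l := Int.ediv_nonneg (by omega) hl.le
      have hq : l * (y / l) ≤ y := Int.mul_ediv_self_le hl.ne'
      have hq2 : y < l * (y / l) + l := Int.lt_mul_ediv_self_add hl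
      have hq1 : 1 ≤ y / l := by
        rw [Int.le_ediv_iff_mul_le hl]; omega
      refine ⟨(y / l).toNat, ?_, ?_, ?_, ?_, ?_⟩
      · omega
      · have : y / l ≤ l * (y / l) := by nlinarith
        omega
      · rw [Int.toNat_of_nonneg hq0]; omega
      · rw [Int.toNat_of_nonneg hq0]; exact hq
      · rw [Int.toNat_of_nonneg hq0]; exact hq2
    rcases le_total (2 * p.2) X with h6 | h6
    · obtain ⟨g, hg, hg1, hg2⟩ := hscale p.2 h3 h4
      have hl : (0 : ℤ) < 2 ^ g := by positivity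
      obtain ⟨b, b1, b2, b3, b4, b5⟩ := hb (2 ^ g) (X - p.2) p.2 hl (by omega) hg1 (by omega)
      obtain ⟨e1, e2⟩ := htd p hp (2 ^ g * (b : ℤ)) (by rw [← hX]; exact b4)
      rw [← hX] at e2
      obtain ⟨h, hh, w1, w2⟩ := exists_win (g := g)
        (δ := (p.1 (tdf N (2 ^ g * (b : ℤ)) p.1)).1 - p.2) (by omega) (by omega)
      refine ⟨g, hg, ?_⟩
      rw [Finset.mem_biUnion]
      refine ⟨b, ?_, ?_⟩
      · unfold Sum_T
        rw [Finset.mem_filter, Finset.mem_Icc]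
        refine ⟨⟨b1, b2⟩, ?_⟩
        exact_mod_cast b3
      · rw [Finset.mem_biUnion]
        refine ⟨h, hh, ?_⟩
        rw [Finset.mem_union]
        left
        rw [hSL]
        simp only [Finset.mem_filter]
        exact ⟨hp, hg1, hg2, b4, b5, h6, w1, w2⟩
    · obtain ⟨g, hg, hg1, hg2⟩ := hscale (X - p.2) (by omega) (by omega)
      have hl : (0 : ℤ) < 2 ^ g := by positivity
      obtain ⟨b, b1, b2, b3, b4, b5⟩ := hb (2 ^ g) p.2 (X - p.2) hl (by omega) hg1 (by omega)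
      obtain ⟨e1, e2⟩ := hta p hp (2 ^ g * (b : ℤ)) b4
      obtain ⟨h, hh, w1, w2⟩ := exists_win (g := g)
        (δ := p.2 - (p.1 (taf N (2 ^ g * (b : ℤ)) p.1)).1) (by omega) (by omega)
      refine ⟨g, hg, ?_⟩
      rw [Finset.mem_biUnion]
      refine ⟨b, ?_, ?_⟩
      · unfold Sum_T
        rw [Finset.mem_filter, Finset.mem_Icc]
        refine ⟨⟨b1, b2⟩, ?_⟩
        exact_mod_cast b3
      · rw [Finset.mem_biUnion]
        refine ⟨h, hh, ?_⟩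
        rw [Finset.mem_union]
        right
        rw [hSR]
        simp only [Finset.mem_filter]
        exact ⟨hp, b4, b5, hg1, hg2, h6, w1, w2⟩
  refine (Finset.card_le_card hcov).trans (Finset.card_biUnion_le.trans ?_)
  apply Finset.sum_le_sum
  intro g _
  refine Finset.card_biUnion_le.trans ?_
  apply Finset.sum_le_sum
  intro b _
  refine Finset.card_biUnion_le.trans ?_
  apply Finset.sum_le_sum
  intro h _
  exact (Finset.card_union_le _ _).trans (add_le_add (hL g b h) (hR g b h))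

theorem pairs_card_le (N W : ℕ) :
    (Sum_pairs N W).card ≤ 10 * (Nat.log 2 W + 1) ^ 2 * (BrSet N (4 * W)).card := by
  classical
  refine (pairs_step N W).trans ?_
  have hg : ∀ g ∈ Finset.range (Nat.log 2 W + 1), ∑ b ∈ Sum_T W g, ∑ h ∈ Finset.range (g + 1),
      ((VS N 0 (2 ^ g * (b : ℤ)) (2 ^ g) (2 ^ g) (2 ^ g) (2 ^ g + 2 ^ g) (lo h) (2 ^ h)).card +
       (VS N (2 ^ g * (b : ℤ)) 0 (2 ^ g) (2 ^ g) (lo h) (2 ^ h) (2 ^ g) (2 ^ g + 2 ^ g)).card) ≤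
      (Nat.log 2 W + 1) * (10 * (BrSet N (4 * W)).card) := by
    intro g hgm
    have hgW := Finset.mem_range.1 hgm
    rw [Finset.sum_comm]
    have hl : (0 : ℤ) < 2 ^ g := by positivity
    have hT : ∀ b ∈ Sum_T W g, 1 ≤ b ∧ (2 : ℤ) ^ g + 2 ^ g * (b : ℤ) ≤ W := by
      intro b hb
      unfold Sum_T at hb
      rw [Finset.mem_filter, Finset.mem_Icc] at hb
      refine ⟨hb.1.1, ?_⟩
      exact_mod_cast hb.2
    calc ∑ h ∈ Finset.range (g + 1), ∑ b ∈ Sum_T W g,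
          ((VS N 0 (2 ^ g * (b : ℤ)) (2 ^ g) (2 ^ g) (2 ^ g) (2 ^ g + 2 ^ g) (lo h) (2 ^ h)).card +
           (VS N (2 ^ g * (b : ℤ)) 0 (2 ^ g) (2 ^ g) (lo h) (2 ^ h) (2 ^ g) (2 ^ g + 2 ^ g)).card)
        ≤ ∑ _h ∈ Finset.range (g + 1), 10 * (BrSet N (4 * W)).card := by
          apply Finset.sum_le_sum
          intro h hh
          have hhg : (2 : ℤ) ^ h ≤ 2 ^ g :=
            pow_le_pow_right₀ (by norm_num) (by have := Finset.mem_range.1 hh; omega)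
          have hw := lo_win h
          have hw' : (2 : ℤ) ^ g + 2 ^ g ≤ 2 * 2 ^ g := by omega
          calc ∑ b ∈ Sum_T W g,
              ((VS N 0 (2 ^ g * (b : ℤ)) (2 ^ g) (2 ^ g) (2 ^ g) (2 ^ g + 2 ^ g) (lo h) (2 ^ h)).card +
               (VS N (2 ^ g * (b : ℤ)) 0 (2 ^ g) (2 ^ g) (lo h) (2 ^ h) (2 ^ g) (2 ^ g + 2 ^ g)).card)
              ≤ ∑ b ∈ Sum_T W g,
              ((WS N 0 (2 ^ g * (b : ℤ)) (2 ^ g) (2 ^ g) (2 ^ g + 2 ^ g + 2 ^ h)).card +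
               (WS N (2 ^ g * (b : ℤ)) 0 (2 ^ g) (2 ^ g) (2 ^ h + (2 ^ g + 2 ^ g))).card) := by
                apply Finset.sum_le_sum
                intro b _
                exact add_le_add (card_VS_le (Or.inl hw') hw (Or.inl le_rfl))
                  (card_VS_le hw (Or.inl hw') (Or.inr le_rfl))
            _ ≤ 5 * (BrSet N (4 * W)).card + 5 * (BrSet N (4 * W)).card := by
                rw [Finset.sum_add_distrib]
                refine add_le_add ?_ ?_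
                · exact WS_overlap (W := W) hl (by omega) (Sum_T W g) hT (fun _ => 0)
                    (fun b => 2 ^ g * (b : ℤ)) (fun b _ => by simp)
                · exact WS_overlap (W := W) hl (by omega) (Sum_T W g) hT
                    (fun b => 2 ^ g * (b : ℤ)) (fun _ => 0) (fun b _ => by simp)
            _ = _ := by ring
      _ = (g + 1) * (10 * (BrSet N (4 * W)).card) := by
          rw [Finset.sum_const, Finset.card_range, smul_eq_mul]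
      _ ≤ _ := by gcongr; omega
  calc _ ≤ ∑ _g ∈ Finset.range (Nat.log 2 W + 1),
        (Nat.log 2 W + 1) * (10 * (BrSet N (4 * W)).card) := Finset.sum_le_sum hg
    _ = _ := by rw [Finset.sum_const, Finset.card_range, smul_eq_mul]; ring

theorem sum_JA_le (N W : ℕ) :
    ∑ w ∈ BrSet N W, (H982F.JA N W w).card ≤
      10 * (Nat.log 2 W + 1) ^ 2 * (BrSet N (4 * W)).card := by
  rw [← Sum_pairs_card]
  exact pairs_card_le N W

theorem coeff_Es_le2 (N W : ℕ) :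
    PowerSeries.coeff N (H982.Es W) ≤
      ((2 + 40 * (Nat.log 2 (2 * W) + 1) ^ 2 : ℕ) : ℝ≥0∞) *
        PowerSeries.coeff N (H982.Us (8 * W)) := by
  have h := sum_JA_le N (2 * W)
  have h1 : ((∑ w ∈ BrSet N (2 * W), (H982F.JA N (2 * W) w).card : ℕ) : ℝ≥0∞) ≤
      ((10 * (Nat.log 2 (2 * W) + 1) ^ 2 : ℕ) : ℝ≥0∞) *
        (2 * PowerSeries.coeff N (H982.Us (8 * W))) := by
    calc ((∑ w ∈ BrSet N (2 * W), (H982F.JA N (2 * W) w).card : ℕ) : ℝ≥0∞)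
        ≤ ((10 * (Nat.log 2 (2 * W) + 1) ^ 2 * (BrSet N (4 * (2 * W))).card : ℕ) : ℝ≥0∞) := by
          exact_mod_cast h
      _ = ((10 * (Nat.log 2 (2 * W) + 1) ^ 2 : ℕ) : ℝ≥0∞) *
          ((BrSet N (8 * W)).card : ℝ≥0∞) := by
          rw [Nat.cast_mul]
          congr 4; ring
      _ ≤ _ := by
          gcongr
          exact H982.card_BrSet_le N (8 * W)
  have h4 : PowerSeries.coeff N (H982.Us W) ≤ PowerSeries.coeff N (H982.Us (8 * W)) :=
    H982.Us_mono (by omega) N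
  calc PowerSeries.coeff N (H982.Es W) ≤ 2 * PowerSeries.coeff N (H982.Us W) +
      2 * ((∑ w ∈ BrSet N (2 * W), (H982F.JA N (2 * W) w).card : ℕ) : ℝ≥0∞) :=
        H982.PE_split N W
    _ ≤ 2 * PowerSeries.coeff N (H982.Us (8 * W)) +
        2 * (((10 * (Nat.log 2 (2 * W) + 1) ^ 2 : ℕ) : ℝ≥0∞) *
          (2 * PowerSeries.coeff N (H982.Us (8 * W)))) := by
        gcongr
    _ = _ := by
        push_cast
        ring

end H500S
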