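import Pool.Agent.H500R3.Saw.Fin5
import Pool.Agent.H981R2.PolyLog
import Pool.Agent.H981R2.Plain

/-!
Transfer of the half-plane bound from the three-lattice words to the words of the square lattice.
-/

set_option linter.unusedSectionVars false

namespace H500S

open scoped ENNReal

/-- letters -/
def tS : H981.St → H982.St
  | .E => .E
  | .W => .W
  | .N => .N
  | .S => .S

lemma tS_inj : Function.Injective tS := by
  intro a b h
  cases a <;> cases b <;> simp_all [tS]

/-- words -/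
def tw (w : List H981.St) : List H982.St := w.map tS

lemma tw_inj : Function.Injective tw := List.map_injective_iff.mpr tS_inj

@[simp] lemma tw_length (w : List H981.St) : (tw w).length = w.length := by simp [tw]

@[simp] lemma tw_nil_iff (w : List H981.St) : tw w = [] ↔ w = [] := by simp [tw]

@[simp] lemma dx_tw (w : List H981.St) : H982.dx (tw w) = H981.dx w := by
  induction w with
  | nil => rfl
  | cons s w ih =>
    change (tS s).x + H982.dx (tw w) = s.x + H981.dx w
    rw [ih]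
    cases s <;> rfl

abbrev sL : H982.Lat := ⟨.sq⟩

@[simp] lemma dy_tw (w : List H981.St) : @H982.dy sL (tw w) = H981.dy w := by
  induction w with
  | nil => rfl
  | cons s w ih =>
    change @H982.St.y sL (tS s) + @H982.sgm sL * @H982.dy sL (tw w) = s.y + H981.dy w
    rw [ih]
    have : @H982.sgm sL = 1 := rfl
    rw [this, one_mul]
    cases s <;> rfl

lemma ok_tw (w : List H981.St) : @H982.Ok sL (tw w) := by
  intro s hs
  unfold tw at hs
  rw [List.mem_map] at hs
  obtain ⟨a, -, rfl⟩ := hs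
  cases a <;> trivial

lemma ok_range {v : List H982.St} (h : @H982.Ok sL v) : ∃ w, tw w = v := by
  induction v with
  | nil => exact ⟨[], rfl⟩
  | cons s v ih =>
    obtain ⟨w, hw⟩ := ih (fun a ha => h a (List.mem_cons_of_mem _ ha))
    have hs : @H982.St.ok sL s := h s (by simp)
    cases s with
    | E => exact ⟨.E :: w, by rw [← hw]; rfl⟩
    | F => exact hs.elim
    | W => exact ⟨.W :: w, by rw [← hw]; rfl⟩
    | X => exact hs.elim
    | N => exact ⟨.N :: w, by rw [← hw]; rfl⟩
    | S => exact ⟨.S :: w, by rw [← hw]; rfl⟩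

lemma saw_tw (w : List H981.St) : @H982.Saw sL (tw w) ↔ H981.Saw w := by
  constructor
  · rintro ⟨h, -⟩ m hm h1 h2
    have := h (tw m) (List.infix_map_iff.mpr ⟨m, hm, rfl⟩) (by rw [dx_tw, h1])
      (by rw [dy_tw, h2])
    exact (tw_nil_iff m).mp this
  · intro h
    refine ⟨?_, ok_tw w⟩
    intro m hm h1 h2
    obtain ⟨m', hm', rfl⟩ := List.infix_map_iff.mp hm
    change H982.dx (tw m') = 0 at h1
    change @H982.dy sL (tw m') = 0 at h2
    rw [dx_tw] at h1
    rw [dy_tw] at h2
    change tw m' = []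
    rw [tw_nil_iff]
    exact h m' hm' h1 h2

lemma hp_tw (w : List H981.St) : H982.HP (tw w) ↔ H981.HP w := by
  constructor
  · intro h u hu h0
    have := h (tw u) (List.prefix_map_iff.mpr ⟨u, hu, rfl⟩) (by rwa [Ne, tw_nil_iff])
    rwa [dx_tw] at this
  · intro h u hu h0
    obtain ⟨u', hu', rfl⟩ := List.prefix_map_iff.mp hu
    change 0 < H982.dx (tw u')
    rw [dx_tw]
    refine h u' hu' ?_
    rintro rfl
    exact h0 rfl

lemma isBr_tw (a : ℕ) (w : List H981.St) : @H982.IsBr sL a (tw w) ↔ H981.IsBr a w := by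
  unfold H982.IsBr H981.IsBr
  rw [saw_tw, hp_tw, dx_tw]
  refine and_congr_right fun _ => and_congr_right fun _ => and_congr_left fun _ => ?_
  constructor
  · intro h u hu
    have := h (tw u) (List.prefix_map_iff.mpr ⟨u, hu, rfl⟩)
    rwa [dx_tw] at this
  · intro h u hu
    obtain ⟨u', hu', rfl⟩ := List.prefix_map_iff.mp hu
    change H982.dx (tw u') ≤ a
    rw [dx_tw]
    exact h u' hu'

lemma isB_tw (w : List H981.St) : @H982.IsB sL (tw w) ↔ H981.IsB w := by
  unfold H982.IsB H981.IsB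
  simp only [isBr_tw]

lemma ind_eq (p : Prop) : H982.ind p = H981.ind p := rfl

lemma hh_eq (n : ℕ) : @H982.hh sL n = H981.hh n := by
  unfold H982.hh H981.hh
  rw [← tw_inj.tsum_eq]
  · apply tsum_congr
    intro w
    rw [ind_eq, saw_tw, hp_tw, tw_length]
  · intro v hv
    rw [Function.mem_support] at hv
    by_contra hcon
    apply hv
    apply H982.ind_not
    rintro ⟨h1, -⟩
    exact hcon (ok_range h1.2)

lemma bn_eq (n : ℕ) : @H982.bn sL n = H981.bn n := by
  rw [@H982.bn_eq sL n, H981.bn_eq]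
  rw [← tw_inj.tsum_eq]
  · apply tsum_congr
    intro w
    rw [ind_eq, isB_tw, tw_length]
  · intro v hv
    rw [Function.mem_support] at hv
    by_contra hcon
    apply hv
    apply H982.ind_not
    rintro ⟨h1, -⟩
    obtain ⟨a, h1⟩ := h1
    exact hcon (ok_range (@H982.IsBr.saw sL _ _ h1).2)

theorem RBsq5 : ∃ K : ℝ, 0 ≤ K ∧ H981.RB K 5 := by
  obtain ⟨K, hK, h⟩ := @RB5 sL
  refine ⟨K, hK, fun N => ?_⟩
  rw [← hh_eq, ← bn_eq]
  exact h N

end H500S

namespace H981

theorem cr'_upper5 : ∃ K : ℝ, 0 ≤ K ∧ ∀ N : ℕ, 2 ≤ N →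
    cr' N ≤ mu ^ N * Real.exp (K * Real.log N ^ 5) := by
  obtain ⟨K, hK, h⟩ := H500S.RBsq5
  exact cr'_upper_log (by norm_num) hK h

theorem br'_lower5 : ∃ K : ℝ, 0 ≤ K ∧ ∀ N : ℕ, 2 ≤ N →
    mu ^ N * Real.exp (- (K * Real.log N ^ 5)) ≤ br' N := by
  obtain ⟨K, hK, h⟩ := H500S.RBsq5
  exact br'_lower_log (by norm_num) hK h

theorem PP_bounds5 : ∃ K : ℝ, 0 ≤ K ∧ ∀ N : ℕ, 2 ≤ N →
    mu ^ (2 * N) * Real.exp (-(K * Real.log N ^ 5)) ≤ PP N ∧
    PP N ≤ mu ^ (2 * N) * Real.exp (K * Real.log N ^ 5) := by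
  obtain ⟨K, hK, h⟩ := H500S.RBsq5
  exact PP_bounds_log (by norm_num) hK h

end H981
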